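import Pool.Agent.P.MP_4197d5_co.Inf.Base

/-! Arbitrary vertex sets: closed systems. -/

namespace Pool.Agent.P.MP_4197d5_co.Inf

open Classical

set_option linter.unusedSectionVars false

section

variable {V ι : Type} [Fintype ι] {E : V → V → Prop} {t : ι → V} {l : ι → ι} {k : ℕ}
  {σ : ι → List V} {m : ι → ι} {C : Finset ι} {col : ι → Bool} {k1 k2 : ℕ} {Γ : Finset V}
  {M : Set V} {D : Bool → Finset ι} {X : Bool → Set V} {pre mid : ι → List V} {gate : ι → V}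

theorem CS.two_le (S : CS E t l k σ m C col k1 k2 Γ M D X pre mid gate) (c : Bool) :
    2 ≤ (D c).card := by
  obtain ⟨u, hu⟩ := S.Dne c
  rw [← Finset.card_pair (S.st.hm.fpf u).symm]
  refine Finset.card_le_card fun x hx => ?_
  rcases Finset.mem_insert.1 hx with rfl | hx
  · exact hu
  · rw [Finset.mem_singleton.1 hx]; exact S.Dm c u hu

theorem CS.lC (S : CS E t l k σ m C col k1 k2 Γ M D X pre mid gate) {d : ι} (hd : d ∈ C) :
    l d ∈ C := (S.hC d hd _).2 (cc.stl d)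

theorem CS.mC (S : CS E t l k σ m C col k1 k2 Γ M D X pre mid gate) {d : ι} (hd : d ∈ C) :
    m d ∈ C := (S.hC d hd _).2 (cc.stm0 d)

theorem CS.two_ends (S : CS E t l k σ m C col k1 k2 Γ M D X pre mid gate) (h : 2 ≤ k1)
    (c : Bool) (d : ι) : ∃ d' ∈ C, d ≠ d' ∧ col d' = c := by
  obtain ⟨a, ha, b, hb, hab⟩ := Finset.one_lt_card.1 (show 1 < _ from (S.k1c c).symm ▸ h)
  rw [Finset.mem_filter] at ha hb
  by_cases e : d = a
  · exact ⟨b, hb.1, e ▸ hab, hb.2⟩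
  · exact ⟨a, ha.1, e, ha.2⟩

theorem line_three (h : St E t σ m ∅) (i : ι) :
    ∃ r, line σ m i = [t i] ++ r ++ [t (m i)] := by
  obtain ⟨r1, h1⟩ := h.eq_cons i
  obtain ⟨r2, h2⟩ := h.eq_cons (m i)
  exact ⟨r1 ++ r2.reverse, by rw [line, h1, h2]; simp⟩

/-- either two connectors are available at one double line, or every connector is the only
middle vertex of a double line -/
theorem CS.rich (S : CS E t l k σ m C col k1 k2 Γ M D X pre mid gate) (c : Bool)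
    (h : (X c).Nonempty) :
    (∃ τ ∈ D c, ∃ x ∈ X c, ∃ x' ∈ X c, x ≠ x' ∧ (¬ On σ x ∨ x ∈ mid τ) ∧
      (¬ On σ x' ∨ x' ∈ mid τ)) ∨
    ((∀ x ∈ X c, ∃ u ∈ D c, mid u = [x]) ∧ ∀ u ∈ D c, mid u = [] ∨ ∃ x, mid u = [x]) := by
  by_contra hcon
  rw [not_or] at hcon
  obtain ⟨h1, h2⟩ := hcon
  have hon : ∀ x ∈ X c, On σ x → ∃ u ∈ D c, x ∈ mid u := fun x hx ho => by
    obtain ⟨u, hu⟩ := (on_iff_line (m := m)).1 ho
    exact ⟨u, S.Xon c x hx u hu⟩
  have hmid : ∀ u ∈ D c, mid u = [] ∨ ∃ x, mid u = [x] := fun u hu => by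
    obtain ⟨e, hX, -⟩ := S.dbl c u hu
    have hn := S.st.line_nodup u
    rw [e] at hn
    have hn' : (mid u).Nodup :=
      hn.sublist ((List.sublist_append_left _ _).trans ((List.sublist_cons_self _ _).trans
        (List.sublist_append_right _ _)))
    rcases hm : mid u with _ | ⟨x, _ | ⟨y, r⟩⟩
    · exact Or.inl rfl
    · exact Or.inr ⟨x, rfl⟩
    · rw [hm] at hn' hX
      refine absurd ⟨u, hu, x, hX x (by simp), y, hX y (by simp), ?_, Or.inr (by simp [hm]),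
        Or.inr (by simp [hm])⟩ h1
      rintro rfl
      simp at hn'
  refine h2 ⟨fun x hx => ?_, hmid⟩
  by_cases ho : On σ x
  · obtain ⟨u, hu, hxu⟩ := hon x hx ho
    refine ⟨u, hu, ?_⟩
    rcases hmid u hu with e | ⟨y, e⟩
    · rw [e] at hxu; simp at hxu
    · rw [e] at hxu ⊢; rw [List.mem_singleton.1 hxu]
  · exfalso
    obtain ⟨y, hy, hne⟩ := (S.X2 c h).exists_ne x
    by_cases ho' : On σ y
    · obtain ⟨u, hu, hyu⟩ := hon y hy ho'
      exact h1 ⟨u, hu, x, hx, y, hy, hne.symm, Or.inl ho, Or.inr hyu⟩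
    · obtain ⟨u, hu⟩ := S.Dne c
      exact h1 ⟨u, hu, x, hx, y, hy, hne.symm, Or.inl ho, Or.inl ho'⟩

/-- in the scarce case there are twice as many wild indices as connectors (`pairs_count`) -/
theorem CS.wild_card (S : CS E t l k σ m C col k1 k2 Γ M D X pre mid gate) (c : Bool)
    (h : ∀ x ∈ X c, ∃ u ∈ D c, mid u = [x]) :
    ∃ Y : Finset V, (∀ x, x ∈ Y ↔ x ∈ X c) ∧
      2 * Y.card ≤ ((D c).filter fun u => mid u ≠ []).card := by
  obtain ⟨Y, hY⟩ := ex_fs (onF σ) (· ∈ X c) fun x hx => by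
    obtain ⟨u, hu, e⟩ := h x hx
    exact mem_onF.2 (On.of_line (m := m) (i := u) (by rw [(S.dbl c u hu).1, e]; simp))
  refine ⟨Y, hY, ?_⟩
  refine pairs_count S.st.hm _ (fun u hu => ?_) _ (fun x u => mid u = [x]) (fun x hx => ?_)
    (fun x _ y _ u _ a b => ?_)
  · rw [Finset.mem_filter] at hu ⊢
    refine ⟨S.Dm c u hu.1, ?_⟩
    rw [(S.dbl c u hu.1).2.2]
    simpa using hu.2
  · obtain ⟨u, hu, e⟩ := h x ((hY x).1 hx)
    refine ⟨u, Finset.mem_filter.2 ⟨hu, by simp [e]⟩, e, ?_⟩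
    rw [(S.dbl c u hu).2.2, e]; rfl
  · rw [a] at b; simpa using b

/-- two applications of `St.exchH` -/
theorem CS.qfam (hs : ∀ x y, E x y → E y x) (S : CS E t l k σ m C col k1 k2 Γ M D X pre mid gate)
    {c : Bool} {τ si sj : ι} (hτ : τ ∈ D c) (hi : si ∈ C) (hj : sj ∈ C) (hne : si ≠ sj)
    (ci : col si = c) (cj : col sj = c) {q1 q2 : List V} (hq : (q1 ++ q2).Nodup)
    (hX : ∀ x ∈ q1 ++ q2, x ∈ X c ∧ (¬ On σ x ∨ x ∈ mid τ))
    (ch1 : (gate τ :: (q1 ++ [t si])).IsChain E) (ch2 : (gate (m τ) :: (q2 ++ [t sj])).IsChain E) :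
    ∃ σ3 m3, QF E t σ m C col D X c τ si sj σ3 m3 := by
  have hm := S.st.hm
  have τC : τ ∉ C := S.DC c τ hτ
  have mτC : m τ ∉ C := S.DC c _ (S.Dm c τ hτ)
  have n1 : ∀ x ∈ C, τ ≠ x := fun x hx e => τC (e ▸ hx)
  have n2 : ∀ x ∈ C, m τ ≠ x := fun x hx e => mτC (e ▸ hx)
  have n3 : sj ≠ m si := fun e => by
    have := S.colm si
    rw [← e, ci, cj] at this
    simp at this
  have n4 : si ≠ m sj := fun e => n3 (by rw [e, hm.inv])
  obtain ⟨eτ, -, -⟩ := S.dbl c τ hτ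
  have chτ := S.st.link τ (by simp)
  have ndτ := S.st.line_nodup τ
  obtain ⟨ri, ei⟩ := line_three S.st si
  obtain ⟨rj, ej⟩ := line_three S.st sj
  have eτ' : line σ m τ = (pre τ ++ [gate τ]) ++ mid τ ++ (gate (m τ) :: (pre (m τ)).reverse) := by
    rw [eτ]; simp
  have c1 : (pre τ ++ [gate τ]).IsChain E := by
    rw [eτ', List.append_assoc] at chτ; exact chain_left chτ
  have c2 : (gate (m τ) :: (pre (m τ)).reverse).IsChain E := by
    rw [eτ'] at chτ; exact chain_right chτ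
  have c2' : (pre (m τ) ++ [gate (m τ)]).IsChain E := by simpa using chain_rev hs c2
  rw [List.nodup_append] at hq
  obtain ⟨m1, x1⟩ := xch_exists hm (n1 si hi) (n2 si hi)
  obtain ⟨σ1, U1, s1, u1, l1, a1, b1, o1⟩ := S.st.exchH hs x1 (c1 := q1) eτ' ei (by simp) (by simp)
    (by simp) (by simp) hq.1
    (fun x hx => ((hX x (by simp [hx])).2).imp_right Or.inl)
    (by simpa using chain_glue c1 ch1) c2 (by simp)
  have oj : Out m τ si sj := ⟨(n1 sj hj).symm, (n2 sj hj).symm, hne.symm, n3⟩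
  have mj : m1 sj = m sj := x1.oth sj oj
  have l2 : line σ1 m1 (m τ) = (pre (m τ) ++ [gate (m τ)]) ++ [] ++ [t (m si)] := by
    rw [line, x1.hma, a1, b1]; simp
  obtain ⟨m3, x3⟩ := xch_exists s1.hm (n2 sj hj) (by rw [x1.hma]; exact n3.symm)
  have hq2 : ∀ x ∈ q2, ¬ On σ1 x := by
    intro x hx hon
    obtain ⟨hxX, hxo⟩ := hX x (by simp [hx])
    have hnt := S.Xnt c x hxX
    have k1 : x ∈ line σ m τ → x ∈ mid τ := fun a => (S.Xon c x hxX τ a).2
    rw [eτ'] at ndτ k1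
    simp only [List.nodup_append, List.mem_append] at ndτ
    rcases St.on_xch x1 o1 hon with a | a | ⟨i, oi, a⟩
    · rw [l1] at a
      rcases List.mem_append.1 a with a | a
      · rcases List.mem_append.1 a with a | a
        · exact ndτ.1.2.2 x (List.mem_append.1 a) x (k1 (by simp at a ⊢; tauto)) rfl
        · exact hq.2.2 x a x hx rfl
      · exact hnt si (by simpa using a)
    · rw [l2] at a
      rcases List.mem_append.1 a with a | a
      · have a' : x ∈ gate (m τ) :: (pre (m τ)).reverse := by simp at a ⊢; tauto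
        exact ndτ.2.2 x (Or.inr (k1 (List.mem_append_right _ a'))) x a' rfl
      · exact hnt (m si) (by simpa using a)
    · rcases hxo with b | b
      · exact b (On.of_line a)
      · rcases S.st.line_disj (i := τ) (by rw [eτ']; simp [b]) a with e | e
        · exact oi.1 e
        · exact oi.2.1 e
  obtain ⟨σ3, U3, s3, u3, l3, a3, b3, o3⟩ := s1.exchH hs x3 (c1 := q2) l2
    ((o1 sj oj).2.trans ej) (by simp) (by simp) (by simp) (by simp) hq.2.1
    (fun x hx => Or.inl (hq2 x hx)) (by simpa using chain_glue c2' ch2) (by simp) (by simp)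
  have hO : ∀ i, Out m1 (m τ) sj i ↔ i ≠ m τ ∧ i ≠ m si ∧ i ≠ sj ∧ i ≠ m sj := fun i => by
    rw [Out, x1.hma, mj]
  have hU : U3 = {m si, m sj} := by
    ext i
    rw [u3, u1, hO, x1.hma, mj]
    simp only [Finset.notMem_empty, false_and, false_or, Finset.mem_insert, Finset.mem_singleton]
    tauto
  rw [x1.hma] at a3
  rw [mj] at b3
  have h31 : m3 (m si) = m sj := by rw [← x1.hma, x3.hma, mj]
  have oτ : Out m si sj τ := ⟨n1 _ hi, n1 _ (S.mC hi), n1 _ hj, n1 _ (S.mC hj)⟩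
  have hl1 : ∀ x ∈ line σ1 m1 τ,
      x ∈ X c ∨ (∃ i, x = t i) ∨ ∃ u, Out m si sj u ∧ x ∈ line σ m u := by
    intro x a
    rw [l1] at a
    rcases List.mem_append.1 a with a | a
    · rcases List.mem_append.1 a with a | a
      · exact Or.inr (Or.inr ⟨τ, oτ, by rw [eτ']; simp at a ⊢; tauto⟩)
      · exact Or.inl (hX x (by simp [a])).1
    · exact Or.inr (Or.inl ⟨si, by simpa using a⟩)
  refine ⟨σ3, m3, hU ▸ s3, hτ, hi, hj, hne, ci, cj, ?_, x3.ha, h31, by simpa using a3,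
    by simpa using b3, fun u a b o => ?_, fun x hon => ?_⟩
  · rw [x3.oth τ ((hO τ).2 ⟨(hm.fpf τ).symm, n1 _ (S.mC hi), n1 _ hj, n1 _ (S.mC hj)⟩), x1.ha]
  · have p1 : Out m τ si u := ⟨a, b, o.1, o.2.1⟩
    have p3 := (hO u).2 ⟨b, o.2.1, o.2.2.1, o.2.2.2⟩
    exact ⟨(x3.oth u p3).trans (x1.oth u p1), (o3 u p3).2.trans (o1 u p1).2⟩
  · rcases St.on_xch x3 o3 hon with a | a | ⟨i, oi, a⟩
    · rw [l3] at a
      rcases List.mem_append.1 a with a | a
      · rcases List.mem_append.1 a with a | a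
        · exact Or.inr (Or.inr ⟨τ, oτ, by rw [eτ']; simp at a ⊢; tauto⟩)
        · exact Or.inl (hX x (by simp [a])).1
      · exact Or.inr (Or.inl ⟨sj, by simpa using a⟩)
    · rw [x1.hma, line, h31, a3, b3] at a
      rcases List.mem_append.1 a with a | a
      · exact Or.inr (Or.inl ⟨_, by simpa using a⟩)
      · exact Or.inr (Or.inl ⟨_, by simpa using a⟩)
    · rw [hO] at oi
      by_cases e1 : i = τ
      · exact hl1 x (e1 ▸ a)
      by_cases e2 : i = si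
      · rw [e2, ← x1.ha, mem_line_m s1.hm] at a
        exact hl1 x a
      have p1 : Out m τ si i := ⟨e1, oi.1, e2, oi.2.1⟩
      exact Or.inr (Or.inr ⟨i, ⟨e2, oi.2.1, oi.2.2.1, oi.2.2.2⟩, (o1 i p1).2 ▸ a⟩)

end

section

variable {V ι : Type} [Fintype ι] {E : V → V → Prop} {t : ι → V} {l : ι → ι} {k : ℕ}
  {σ : ι → List V} {m : ι → ι} {C : Finset ι} {col : ι → Bool} {k1 k2 : ℕ} {Γ : Finset V}
  {M : Set V} {D : Bool → Finset ι} {X : Bool → Set V} {pre mid : ι → List V} {gate : ι → V}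
  {c : Bool} {τ si sj : ι} {σ3 : ι → List V} {m3 : ι → ι}

/-- neighbours of an end among the connectors and gates of its colour -/
noncomputable def nbD (E : V → V → Prop) (D : Finset ι) (X : Finset V) (gate : ι → V) (w : V) :
    Finset V := (X ∪ D.image gate).filter (E w)

/-- a system with the two trivial loose ends `e, f` and double lines indexed by `B` -/
structure TC (E : V → V → Prop) (t : ι → V) (l : ι → ι) (σ : ι → List V) (m : ι → ι)
    (U : Finset ι) (e f : ι) (B : Finset ι) (Y : Set V) (pre mid : ι → List V)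
    (gate : ι → V) : Prop where
  hs : ∀ x y, E x y → E y x
  hl : Pr l
  st : St E t σ m U
  hU : ∀ i ∈ U, i = e ∨ i = f
  hef : m e = f
  se : σ e = [t e]
  sf : σ f = [t f]
  ne : ∀ u ∈ B, u ≠ e ∧ u ≠ f
  dm : ∀ u ∈ B, m u ∈ B
  ln : ∀ u ∈ B, line σ m u = pre u ++ gate u :: (mid u ++ gate (m u) :: (pre (m u)).reverse)
  mr : ∀ u ∈ B, mid (m u) = (mid u).reverse
  mx : ∀ u ∈ B, ∀ x ∈ mid u, x ∈ Y
  xa : ∀ x ∈ Y, E x (t e) ∧ E x (t f) ∧ ∀ u ∈ B, E x (gate u)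

namespace TC

variable {U B : Finset ι} {Y : Set V} {e f u : ι}

theorem swap (h : TC E t l σ m U e f B Y pre mid gate) : TC E t l σ m U f e B Y pre mid gate :=
  ⟨h.hs, h.hl, h.st, fun i hi => (h.hU i hi).symm, by rw [← h.hef, h.st.hm.inv], h.sf, h.se,
    fun u hu => (h.ne u hu).symm, h.dm, h.ln, h.mr, h.mx,
    fun x hx => ⟨(h.xa x hx).2.1, (h.xa x hx).1, (h.xa x hx).2.2⟩⟩

theorem chains (h : TC E t l σ m U e f B Y pre mid gate) (hu : u ∈ B) :
    (gate u :: (pre u).reverse).IsChain E := by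
  have h1 : u ∉ U := fun a => by
    rcases h.hU u a with a | a
    · exact (h.ne u hu).1 a
    · exact (h.ne u hu).2 a
  have h2 := h.st.link u h1
  rw [h.ln u hu] at h2
  have h3 : (pre u ++ [gate u]).IsChain E := (List.isChain_split.1 h2).1
  simpa using chain_rev h.hs h3

theorem xch (h : TC E t l σ m U e f B Y pre mid gate) (hu : u ∈ B) : ∃ m', Xch m m' e u :=
  xch_exists h.st.hm (h.ne u hu).1.symm (by rw [h.hef]; exact (h.ne u hu).2.symm)

/-- realization of the exchange of the loose pair with a double line -/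
theorem real (h : TC E t l σ m U e f B Y pre mid gate) (hu : u ∈ B) {m' : ι → ι}
    (hx : Xch m m' e u) {c1 c2 : List V} (hc : (c1 ++ c2).Nodup)
    (hav : ∀ x ∈ c1 ++ c2, ¬ On σ x ∨ x ∈ mid u)
    (ch1 : (t e :: (c1 ++ [gate u])).IsChain E) (ch2 : (t f :: (c2 ++ [gate (m u)])).IsChain E) :
    ∃ σ', St E t σ' m' ∅ ∧
      line σ' m' f = [t f] ++ c2 ++ gate (m u) :: (pre (m u)).reverse ∧
      ∀ i, Out m e u i → line σ' m' i = line σ m i := by
  obtain ⟨σ', U', h1, h2, -, h4, h5⟩ := h.st.exch h.hs hx (P1 := [t e]) (M1 := []) (Q1 := [t f])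
    (P2 := pre u ++ [gate u]) (M2 := mid u) (Q2 := gate (m u) :: (pre (m u)).reverse)
    (c1 := c1) (c2 := c2) (by simp [line, h.hef, h.se, h.sf]) (by rw [h.ln u hu]; simp)
    (by simp) (by simp) (by simp) (by simp) hc
    (fun x hx => (hav x hx).imp id Or.inr)
    (by
      have := chain_glue (A := t e :: c1) (by simpa using ch1) (h.chains hu)
      simpa using this)
    (by
      have := chain_glue (A := t f :: c2) (by simpa using ch2) (h.chains (h.dm u hu))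
      simpa using this)
  have hU : U' = ∅ := by
    ext i
    simp only [h2, Finset.notMem_empty, iff_false, not_and]
    intro hi ho
    rcases h.hU i hi with a | a
    · exact ho.1 a
    · exact ho.2.1 (by rw [h.hef]; exact a)
  refine ⟨σ', hU ▸ h1, ?_, fun i hi => (h5 i hi).2⟩
  rw [h.hef] at h4
  simpa using h4

/-- data realizing the exchange -/
def Rz (E : V → V → Prop) (t : ι → V) (σ : ι → List V) (m : ι → ι) (e f : ι)
    (mid : ι → List V) (gate : ι → V) (u : ι) : Prop :=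
  ∃ c1 c2 : List V, (c1 ++ c2).Nodup ∧ (∀ x ∈ c1 ++ c2, ¬ On σ x ∨ x ∈ mid u) ∧
    (t e :: (c1 ++ [gate u])).IsChain E ∧ (t f :: (c2 ++ [gate (m u)])).IsChain E

theorem both (h : TC E t l σ m U e f B Y pre mid gate) (hu : u ∈ B)
    (r1 : Rz E t σ m e f mid gate u) (r2 : Rz E t σ m e f mid gate (m u)) :
    ∃ σ' m', St E t σ' m' ∅ ∧ Co l m m' := by
  obtain ⟨m1, x1⟩ := h.xch hu
  obtain ⟨m2, x2⟩ := h.xch (h.dm u hu)
  rcases x1.any h.hl h.st.hm x2 with a | a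
  · obtain ⟨c1, c2, b1, b2, b3, b4⟩ := r1
    obtain ⟨σ', s, -⟩ := h.real hu x1 b1 b2 b3 b4
    exact ⟨σ', m1, s, x1.co h.st.hm a⟩
  · obtain ⟨c1, c2, b1, b2, b3, b4⟩ := r2
    obtain ⟨σ', s, -⟩ := h.real (h.dm u hu) x2 b1 b2 b3 b4
    exact ⟨σ', m2, s, x2.co h.st.hm a⟩

theorem rz_mid (h : TC E t l σ m U e f B Y pre mid gate) (hu : u ∈ B) {x : V}
    (hx : x ∈ mid u) (a : E (t e) (gate u)) : Rz E t σ m e f mid gate u := by
  have hx' := h.xa x (h.mx u hu x hx)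
  refine ⟨[], [x], by simp, by simp [hx], by simpa using a, ?_⟩
  simp [h.hs _ _ hx'.2.1, hx'.2.2 _ (h.dm u hu)]

/-- two wild gates of different pairs, the partner of `e` not in the first pair -/
theorem two_wild (h : TC E t l σ m U e f B Y pre mid gate) {u1 u2 : ι} (h1 : u1 ∈ B)
    (h2 : u2 ∈ B) (n1 : u2 ≠ u1) (n2 : u2 ≠ m u1) {x1 x2 : V} (e1 : mid u1 = [x1])
    (e2 : mid u2 = [x2]) (a : E (t e) (gate u1)) {y : ι} (hy : y = f ∨ y = u2 ∨ y = m u2)
    {W : Finset ι} (hW : ∀ i, i ∉ W → Out m e u1 i) (hc : cc l m W e y) :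
    ∃ σ' m', St E t σ' m' ∅ ∧ Co l m m' := by
  have hm := h.st.hm
  obtain ⟨m1, x1'⟩ := h.xch h1
  have a1 := h.xa x1 (h.mx u1 h1 x1 (by simp [e1]))
  have a2 := h.xa x2 (h.mx u2 h2 x2 (by simp [e2]))
  obtain ⟨σ1, s1, l1, o1⟩ := h.real h1 x1' (c1 := []) (c2 := [x1]) (by simp) (by simp [e1])
    (by simpa using a) (by simp [h.hs _ _ a1.2.1, a1.2.2 _ (h.dm u1 h1)])
  by_cases hef : cc l m1 ∅ e f
  · exact ⟨σ1, m1, s1, x1'.co hm (by rw [h.hef]; exact hef)⟩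
  have o2 : Out m e u1 u2 := ⟨(h.ne u2 h2).1, by rw [h.hef]; exact (h.ne u2 h2).2, n1, n2⟩
  have m1u2 : m1 u2 = m u2 := x1'.oth u2 o2
  have m1f : m1 f = m u1 := by rw [← h.hef]; exact x1'.hma
  have hy1 : cc l m1 ∅ e y := cc.le (fun i hi => cc.of_eq (x1'.oth i (hW i hi))) hc
  have heu : cc l m1 ∅ e u2 := by
    rcases hy with rfl | rfl | rfl
    · exact absurd hy1 hef
    · exact hy1
    · exact hy1.trans (cc.of_eq m1u2).symm
  have hd : ¬ cc l m1 ∅ f u2 := fun b => hef (heu.trans b.symm)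
  obtain ⟨m2, x2'⟩ := xch_exists s1.hm (a := f) (b := u2) (h.ne u2 h2).2.symm
    (by rw [m1f]; exact n2.symm)
  have n12 : x1 ≠ x2 := by
    rintro rfl
    have b1 : x1 ∈ line σ m u1 := by rw [h.ln u1 h1, e1]; simp
    have b2 : x1 ∈ line σ m u2 := by rw [h.ln u2 h2, e2]; simp
    rcases h.st.line_disj b1 b2 with b | b
    · exact n1 b
    · exact n2 b
  obtain ⟨σ2, s2, -⟩ := s1.exch0 h.hs x2' (P1 := [t f]) (M1 := [x1])
    (Q1 := gate (m u1) :: (pre (m u1)).reverse) (P2 := pre u2 ++ [gate u2]) (M2 := [x2])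
    (Q2 := gate (m u2) :: (pre (m u2)).reverse) (c1 := [x1]) (c2 := [x2]) l1
    (by rw [o1 u2 o2, h.ln u2 h2, e2]; simp) (by simp) (by simp) (by simp) (by simp)
    (by simp [n12]) (by simp)
    (by
      have := h.chains h2
      simp [h.hs _ _ a1.2.1, a1.2.2 _ h2, this])
    (by
      have b1 := chain_rev h.hs (h.chains (h.dm u1 h1))
      have b2 : (x2 :: gate (m u2) :: (pre (m u2)).reverse).IsChain E :=
        List.isChain_cons_cons.2 ⟨a2.2.2 _ (h.dm u2 h2), h.chains (h.dm u2 h2)⟩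
      have := chain_edge (A := pre (m u1)) (by simpa using b1)
        (h.hs _ _ (a2.2.2 _ (h.dm u1 h1))) b2
      simpa using this)
  obtain ⟨-, co⟩ := x2'.diff h.hl s1.hm hd
  refine ⟨σ2, m2, s2, x1'.co' hm co ?_⟩
  rw [h.hef]
  exact (co _ _ heu).trans (cc.of_eq x2'.ha).symm

/-- an end sees at most one wild gate -/
theorem one_wild (h : TC E t l σ m U e f B Y pre mid gate)
    (hsc : ∀ u ∈ B, mid u = [] ∨ ∃ x, mid u = [x]) :
    (∃ σ' m', St E t σ' m' ∅ ∧ Co l m m') ∨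
      ((B.filter fun u => mid u ≠ []).filter fun u => E (t e) (gate u)).card ≤ 1 := by
  by_contra hcon
  rw [not_or, Finset.card_le_one] at hcon
  obtain ⟨hno, hcon⟩ := hcon
  push Not at hcon
  obtain ⟨u1, b1, u2, b2, n1⟩ := hcon
  simp only [Finset.mem_filter] at b1 b2
  obtain ⟨⟨h1, w1⟩, a1⟩ := b1
  obtain ⟨⟨h2, w2⟩, a2⟩ := b2
  obtain ⟨x1, e1⟩ := (hsc u1 h1).resolve_left w1
  obtain ⟨x2, e2⟩ := (hsc u2 h2).resolve_left w2
  have hm := h.st.hm
  apply hno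
  by_cases n2 : u2 = m u1
  · subst n2
    exact h.both h1 (h.rz_mid h1 (x := x1) (by simp [e1]) a1)
      (h.rz_mid h2 (x := x2) (by simp [e2]) a2)
  have n3 : u1 ≠ m u2 := fun b => n2 (by rw [b, hm.inv])
  obtain ⟨y, hy, hne, hc⟩ := parity h.hl hm (U := {e, m e, u1, m u1, u2, m u2}) (x := e)
    (by
      intro i hi
      simp only [Finset.mem_insert, Finset.mem_singleton] at hi ⊢
      rcases hi with rfl | rfl | rfl | rfl | rfl | rfl <;> simp [hm.inv]) (by simp)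
  have o1 : ∀ i, i ∉ ({e, m e, u1, m u1, u2, m u2} : Finset ι) → Out m e u1 i ∧ Out m e u2 i := by
    intro i hi
    simp only [Finset.mem_insert, Finset.mem_singleton, not_or] at hi
    exact ⟨⟨hi.1, hi.2.1, hi.2.2.1, hi.2.2.2.1⟩, ⟨hi.1, hi.2.1, hi.2.2.2.2.1, hi.2.2.2.2.2⟩⟩
  simp only [Finset.mem_insert, Finset.mem_singleton] at hy
  rcases hy with b | b | b | b | b | b
  · exact absurd b hne
  · exact h.two_wild h1 h2 n1.symm n2 e1 e2 a1 (Or.inl (b.trans h.hef)) (fun i hi => (o1 i hi).1) hc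
  · exact h.two_wild h2 h1 n1 n3 e2 e1 a2 (Or.inr (Or.inl b)) (fun i hi => (o1 i hi).2) hc
  · exact h.two_wild h2 h1 n1 n3 e2 e1 a2 (Or.inr (Or.inr b)) (fun i hi => (o1 i hi).2) hc
  · exact h.two_wild h1 h2 n1.symm n2 e1 e2 a1 (Or.inr (Or.inl b)) (fun i hi => (o1 i hi).1) hc
  · exact h.two_wild h1 h2 n1.symm n2 e1 e2 a1 (Or.inr (Or.inr b)) (fun i hi => (o1 i hi).1) hc

end TC

theorem nbD_scarce {B : Finset ι} {Y : Finset V} {w : V} (h2 : 2 ≤ Y.card)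
    (hw : 2 * Y.card ≤ (B.filter fun u => mid u ≠ []).card)
    (h1 : ((B.filter fun u => mid u ≠ []).filter fun u => E w (gate u)).card ≤ 1) :
    (nbD E B Y gate w).card < B.card := by
  have hsub : nbD E B Y gate w ⊆ Y ∪ ((B.filter fun u => ¬ mid u ≠ []).image gate ∪
      ((B.filter fun u => mid u ≠ []).filter fun u => E w (gate u)).image gate) := by
    intro v hv
    simp only [nbD, Finset.mem_filter, Finset.mem_union, Finset.mem_image] at hv ⊢
    obtain ⟨hv | ⟨u, hu, rfl⟩, a⟩ := hv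
    · exact Or.inl hv
    · by_cases b : mid u ≠ []
      · exact Or.inr (Or.inr ⟨u, ⟨⟨hu, b⟩, a⟩, rfl⟩)
      · exact Or.inr (Or.inl ⟨u, ⟨hu, b⟩, rfl⟩)
  have c1 := Finset.card_le_card hsub
  have c2 := Finset.card_union_le Y ((B.filter fun u => ¬ mid u ≠ []).image gate ∪
      ((B.filter fun u => mid u ≠ []).filter fun u => E w (gate u)).image gate)
  have c3 := Finset.card_union_le ((B.filter fun u => ¬ mid u ≠ []).image gate)
      (((B.filter fun u => mid u ≠ []).filter fun u => E w (gate u)).image gate)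
  have c4 := Finset.card_image_le (s := B.filter fun u => ¬ mid u ≠ []) (f := gate)
  have c5 := Finset.card_image_le
    (s := (B.filter fun u => mid u ≠ []).filter fun u => E w (gate u)) (f := gate)
  have c6 := Finset.card_filter_add_card_filter_not (s := B) (fun u => mid u ≠ [])
  omega

theorem nbD_empty {B : Finset ι} {w : V} :
    (nbD E B ∅ gate w).card ≤ B.card ∧
      (B.card ≤ (nbD E B ∅ gate w).card → ∀ u ∈ B, E w (gate u)) := by
  have hsub : nbD E B ∅ gate w ⊆ B.image gate := by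
    intro v hv
    simp only [nbD, Finset.mem_filter, Finset.empty_union] at hv
    exact hv.1
  have c1 := Finset.card_image_le (s := B) (f := gate)
  refine ⟨(Finset.card_le_card hsub).trans c1, fun a u hu => ?_⟩
  have e := Finset.eq_of_subset_of_card_le hsub (c1.trans a)
  have : gate u ∈ nbD E B ∅ gate w := e ▸ Finset.mem_image_of_mem _ hu
  exact (Finset.mem_filter.1 this).2

end

section

variable {V ι : Type} [Fintype ι] {E : V → V → Prop} {t : ι → V} {l : ι → ι} {k : ℕ}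
  {σ : ι → List V} {m : ι → ι} {c : ι} {col : ι → Bool}

namespace CSx

theorem dbl_m (hm : Pr m) {B : Set V} {u : ι} (h : Dbl (line σ m u) B) :
    Dbl (line σ m (m u)) B := by
  obtain ⟨x, hx, y, hy, a⟩ := h
  exact ⟨x, (mem_line_m hm).2 hx, y, (mem_line_m hm).2 hy, a⟩

theorem dbl_mono {L : List V} {B B' : Set V} (h : Dbl L B) (hB : ∀ v ∈ B, v ∈ B') : Dbl L B' := by
  obtain ⟨x, hx, y, hy, a, b, c⟩ := h
  exact ⟨x, hx, y, hy, a, hB x b, hB y c⟩

variable {C : Finset ι} {Cls : Set V} {s : Bool → V} {A X : V → Set V}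

/-- union of the sets of all classes -/
def Aall (Cls : Set V) (A : V → Set V) : Set V := {v | ∃ κ ∈ Cls, v ∈ A κ}

/-- double lines of a set -/
noncomputable def Dk (σ : ι → List V) (m : ι → ι) (C : Finset ι) (B : Set V) : Finset ι :=
  Finset.univ.filter fun u => u ∉ C ∧ Dbl (line σ m u) B

theorem mem_Dk {B : Set V} {u : ι} : u ∈ Dk σ m C B ↔ u ∉ C ∧ Dbl (line σ m u) B := by
  simp [Dk]

/-- lines which are not double -/
noncomputable def ND (σ : ι → List V) (m : ι → ι) (C : Finset ι) (B : Set V) : Finset ι :=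
  Finset.univ.filter fun u => u ∉ C ∧ ¬ Dbl (line σ m u) B

theorem mem_ND {B : Set V} {u : ι} : u ∈ ND σ m C B ↔ u ∉ C ∧ ¬ Dbl (line σ m u) B := by
  simp [ND]

/-- members of the set on lines which are not double -/
noncomputable def GG (σ : ι → List V) (m : ι → ι) (C : Finset ι) (B : Set V) : Finset V :=
  (onF σ).filter fun v => v ∈ B ∧ ∃ u ∈ ND σ m C B, v ∈ line σ m u

theorem mem_GG {B : Set V} {v : V} :
    v ∈ GG σ m C B ↔ v ∈ B ∧ ∃ u ∈ ND σ m C B, v ∈ line σ m u := by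
  rw [GG, Finset.mem_filter]
  exact ⟨And.right, fun h => ⟨by
    obtain ⟨-, u, -, a⟩ := h
    exact mem_onF.2 (On.of_line a), h⟩⟩

theorem Dk_m (hm : Pr m) (hCm : ∀ u, m u ∈ C → u ∈ C) {B : Set V} {u : ι}
    (h : u ∈ Dk σ m C B) : m u ∈ Dk σ m C B :=
  mem_Dk.2 ⟨fun e => (mem_Dk.1 h).1 (hCm u e), dbl_m hm (mem_Dk.1 h).2⟩

theorem ND_m (hm : Pr m) (hCm : ∀ u, m u ∈ C → u ∈ C) {B : Set V} {u : ι}
    (h : u ∈ ND σ m C B) : m u ∈ ND σ m C B :=
  mem_ND.2 ⟨fun e => (mem_ND.1 h).1 (hCm u e), fun e => (mem_ND.1 h).2 (by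
    have := dbl_m hm e
    rwa [hm.inv] at this)⟩

theorem GG_card (hm : Pr m) (hCm : ∀ u, m u ∈ C → u ∈ C) (B : Set V) :
    2 * (GG σ m C B).card ≤ (ND σ m C B).card := by
  refine pairs_count hm _ (fun i hi => ND_m hm hCm hi) _ (fun g i => g ∈ line σ m i) ?_ ?_
  · intro g hg
    obtain ⟨-, u, hu, hg⟩ := mem_GG.1 hg
    exact ⟨u, hu, hg, (mem_line_m hm).2 hg⟩
  · intro g hg g' hg' i hi a b
    by_contra e
    exact (mem_ND.1 hi).2 ⟨g, a, g', b, e, (mem_GG.1 hg).1, (mem_GG.1 hg').1⟩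

theorem DB (S : DS E t σ m C col Cls s A X) {κ κ' y : V} {u : ι} (hκ : κ ∈ Cls) (hκ' : κ' ∈ Cls)
    (hu : u ∈ Dk σ m C (A κ)) (hy : y ∈ line σ m u) (hA : y ∈ A κ') : κ' = κ := by
  by_contra e
  obtain ⟨hC, x1, a1, x2, a2, hne, b1, b2⟩ := mem_Dk.1 hu
  exact hne ((S.d1 κ hκ κ' hκ' (Ne.symm e) u hC x1 a1 y hy b1 hA).trans
    (S.d1 κ hκ κ' hκ' (Ne.symm e) u hC x2 a2 y hy b2 hA).symm)

theorem DB' (S : DS E t σ m C col Cls s A X) {κ κ' : V} {u : ι} (hκ : κ ∈ Cls) (hκ' : κ' ∈ Cls)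
    (hu : u ∈ Dk σ m C (A κ)) (hu' : u ∈ Dk σ m C (A κ')) : κ' = κ := by
  obtain ⟨-, x1, a1, -, -, -, b1, -⟩ := mem_Dk.1 hu'
  exact DB S hκ hκ' hu a1 b1

theorem DA (S : DS E t σ m C col Cls s A X) {u : ι} (hu : u ∉ C)
    (h : Dbl (line σ m u) (Aall Cls A)) : ∃ κ ∈ Cls, u ∈ Dk σ m C (A κ) := by
  obtain ⟨x, hx, y, hy, hne, ⟨κ, hκ, a⟩, ⟨κ', hκ', b⟩⟩ := h
  by_cases e : κ = κ'
  · subst e
    exact ⟨κ, hκ, mem_Dk.2 ⟨hu, x, hx, y, hy, hne, a, b⟩⟩
  · exact absurd (S.d1 κ hκ κ' hκ' e u hu x hx y hy a b) hne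

theorem Dk_tg (S : DS E t σ m C col Cls s A X) {κ : V} {u : ι} (hκ : κ ∈ Cls)
    (ht : Tg σ m C κ) : u ∉ Dk σ m C (A κ) := fun hu => by
  obtain ⟨-, x1, -, x2, -, hne, b1, b2⟩ := mem_Dk.1 hu
  exact hne (((S.d2 κ hκ ht x1).1 b1).trans ((S.d2 κ hκ ht x2).1 b2).symm)

theorem Dk_all {κ : V} {u : ι} (hκ : κ ∈ Cls) (hu : u ∈ Dk σ m C (A κ)) :
    Dbl (line σ m u) (Aall Cls A) :=
  dbl_mono (mem_Dk.1 hu).2 fun _ hv => ⟨κ, hκ, hv⟩

theorem FT (S : DS E t σ m C col Cls s A X) {v : V} (hv : v ∈ Cls) (ht : Tg σ m C v) :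
    v ∈ GG σ m C (Aall Cls A) := by
  have hA : v ∈ A v := (S.d2 v hv ht v).2 rfl
  obtain ⟨u, hu, hl⟩ := ht
  refine mem_GG.2 ⟨⟨v, hv, hA⟩, u, mem_ND.2 ⟨hu, fun hd => ?_⟩, hl⟩
  obtain ⟨κ, hκ, hk⟩ := DA S hu hd
  have := DB S hκ hv hk hl hA
  subst this
  exact Dk_tg S hv ⟨u, hu, hl⟩ hk

theorem X_nt (h : St E t σ m ∅) (S : DS E t σ m C col Cls s A X) {κ x : V} (hκ : κ ∈ Cls)
    (hx : x ∈ X κ) (i : ι) : x ≠ t i := by
  rcases S.d4 κ hκ x hx with h1 | ⟨u, -, h1⟩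
  · exact h.nt_of_not_on h1 i
  · exact h.btw_nt h1 i

/-- the conclusion of `St.gates` -/
def Gt (σ : ι → List V) (m : ι → ι) (B : Set V) (pre mid : ι → List V) (gate : ι → V) : Prop :=
  ∀ u, (∃ g ∈ line σ m u, g ∈ B) → gate u ∈ B ∧ (∀ v ∈ pre u, v ∉ B) ∧
    (Dbl (line σ m u) B →
      line σ m u = pre u ++ gate u :: (mid u ++ gate (m u) :: (pre (m u)).reverse) ∧
        mid (m u) = (mid u).reverse) ∧
    (¬ Dbl (line σ m u) B →
      line σ m u = pre u ++ gate u :: (pre (m u)).reverse ∧ gate (m u) = gate u)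

variable {pre mid : ι → List V} {gate : ι → V}

theorem shape (S : DS E t σ m C col Cls s A X) (hg : Gt σ m (Aall Cls A) pre mid gate) {κ : V}
    {u : ι} (hκ : κ ∈ Cls) (hu : u ∈ Dk σ m C (A κ)) :
    line σ m u = pre u ++ gate u :: (mid u ++ gate (m u) :: (pre (m u)).reverse) ∧
      mid (m u) = (mid u).reverse ∧ gate u ∈ A κ ∧ gate u ∈ line σ m u ∧
      ∀ v ∈ pre u, v ∉ Aall Cls A := by
  have hd := Dk_all hκ hu
  obtain ⟨g1, g2, g3, -⟩ := hg u (by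
    obtain ⟨x, hx, -, -, -, a, -⟩ := hd
    exact ⟨x, hx, a⟩)
  obtain ⟨e1, e2⟩ := g3 hd
  have hl : gate u ∈ line σ m u := by rw [e1]; simp
  obtain ⟨κ', hκ', g1⟩ := g1
  have := DB S hκ hκ' hu hl g1
  subst this
  exact ⟨e1, e2, g1, hl, g2⟩

theorem mid_X (hm : Pr m) (hCm : ∀ u, m u ∈ C → u ∈ C) (S : DS E t σ m C col Cls s A X)
    (hg : Gt σ m (Aall Cls A) pre mid gate) {κ x : V} {u : ι} (hκ : κ ∈ Cls)
    (hu : u ∈ Dk σ m C (A κ)) (hx : x ∈ mid u) : x ∈ X κ := by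
  obtain ⟨e1, -, g1, -, -⟩ := shape S hg hκ hu
  obtain ⟨-, -, g2, -, -⟩ := shape S hg hκ (Dk_m hm hCm hu)
  refine S.d4' κ hκ x u (mem_Dk.1 hu).1 ?_
  rw [e1]
  exact btw_of_mid g1 g2 hx

theorem FR (hm : Pr m) (hCm : ∀ u, m u ∈ C → u ∈ C) (S : DS E t σ m C col Cls s A X)
    (hg : Gt σ m (Aall Cls A) pre mid gate) {κ v : V} (hκ : κ ∈ Cls) (hv : v ∈ A κ)
    (ht : Tg σ m C v) :
    v ∈ X κ ∨ v ∈ GG σ m C (Aall Cls A) ∨ ∃ u ∈ Dk σ m C (A κ), v = gate u := by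
  obtain ⟨u, hu, hl⟩ := ht
  by_cases hd : Dbl (line σ m u) (Aall Cls A)
  · obtain ⟨κ', hκ', hk⟩ := DA S hu hd
    have := DB S hκ' hκ hk hl hv
    subst this
    obtain ⟨e1, -, -, -, g1⟩ := shape S hg hκ hk
    obtain ⟨-, -, -, -, g2⟩ := shape S hg hκ (Dk_m hm hCm hk)
    rw [e1] at hl
    simp only [List.mem_append, List.mem_cons, List.mem_reverse] at hl
    rcases hl with hl | hl | hl | hl | hl
    · exact absurd ⟨κ, hκ, hv⟩ (g1 v hl)
    · exact Or.inr (Or.inr ⟨u, hk, hl⟩)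
    · exact Or.inl (mid_X hm hCm S hg hκ hk hl)
    · exact Or.inr (Or.inr ⟨m u, Dk_m hm hCm hk, hl⟩)
    · exact absurd ⟨κ, hκ, hv⟩ (g2 v hl)
  · exact Or.inr (Or.inl (mem_GG.2 ⟨⟨κ, hκ, hv⟩, u, mem_ND.2 ⟨hu, hd⟩, hl⟩))

theorem X_on (h : St E t σ m ∅) (hCm : ∀ u, m u ∈ C → u ∈ C) (S : DS E t σ m C col Cls s A X)
    (hg : Gt σ m (Aall Cls A) pre mid gate) {κ x : V} {u : ι} (hκ : κ ∈ Cls) (hx : x ∈ X κ)
    (hl : x ∈ line σ m u) : u ∈ Dk σ m C (A κ) ∧ x ∈ mid u := by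
  rcases S.d4 κ hκ x hx with h1 | ⟨u', hu', h1⟩
  · exact absurd (On.of_line hl) h1
  have h2 : u' ∈ Dk σ m C (A κ) := mem_Dk.2 ⟨hu', h1.dbl (h.line_nodup u')⟩
  have h3 : u ∈ Dk σ m C (A κ) ∧ Btw (line σ m u) (A κ) x := by
    rcases h.line_disj h1.mem hl with rfl | rfl
    · exact ⟨h2, h1⟩
    · exact ⟨Dk_m h.hm hCm h2, by rw [line_rev h.hm]; exact h1.rev⟩
  obtain ⟨e1, -, -, -, g1⟩ := shape S hg hκ h3.1
  obtain ⟨-, -, -, -, g2⟩ := shape S hg hκ (Dk_m h.hm hCm h3.1)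
  refine ⟨h3.1, btw_mid (A := A κ) (e1 ▸ h.line_nodup u) (fun v hv hA => g1 v hv ⟨κ, hκ, hA⟩)
    (fun v hv hA => g2 v (List.mem_reverse.1 hv) ⟨κ, hκ, hA⟩) (e1 ▸ h3.2)⟩

theorem NBX (hm : Pr m) (hCm : ∀ u, m u ∈ C → u ∈ C) (S : DS E t σ m C col Cls s A X)
    (hg : Gt σ m (Aall Cls A) pre mid gate) {κ x v : V} (hκ : κ ∈ Cls) (ht : ¬ Tg σ m C κ)
    (hx : x ∈ X κ) (e : E x v) : Nd t σ m C col Cls s v κ ∨
      v ∈ X κ ∨ v ∈ GG σ m C (Aall Cls A) ∨ ∃ u ∈ Dk σ m C (A κ), v = gate u := by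
  rcases S.d3 κ hκ ht x hx v e with h1 | h1 | h1
  · exact Or.inr (Or.inl h1)
  · exact Or.inr (FR hm hCm S hg hκ h1.1 h1.2)
  · exact Or.inl h1

theorem nd_cases {v κ : V} (h : Nd t σ m C col Cls s v κ) :
    (∃ d ∈ C, v = t d) ∨ Ordi σ m C Cls s v := by
  rcases h with ⟨d, hd, -, e⟩ | ⟨h1, rfl⟩
  · exact Or.inl ⟨d, hd, e⟩
  · exact Or.inr h1

theorem NB (hm : Pr m) (hCm : ∀ u, m u ∈ C → u ∈ C) (S : DS E t σ m C col Cls s A X)
    (hg : Gt σ m (Aall Cls A) pre mid gate) {κ x v : V} (hκ : κ ∈ Cls) (ht : ¬ Tg σ m C κ)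
    (hx : x ∈ X κ ∨ Nd t σ m C col Cls s x κ) (e : E x v) :
    (∃ d ∈ C, v = t d) ∨ Ordi σ m C Cls s v ∨
      v ∈ X κ ∨ v ∈ GG σ m C (Aall Cls A) ∨ ∃ u ∈ Dk σ m C (A κ), v = gate u := by
  rcases hx with hx | hx
  · rcases NBX hm hCm S hg hκ ht hx e with h1 | h1
    · exact or_assoc.1 (Or.inl (nd_cases h1))
    · exact Or.inr (Or.inr h1)
  · rcases S.d5 x κ hx v e with ⟨κ', h1⟩ | h1 | h1 | h1
    · exact or_assoc.1 (Or.inl (nd_cases h1))
    · exact Or.inr (Or.inr (Or.inl h1))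
    · exact Or.inr (Or.inr (FR hm hCm S hg hκ h1.1 h1.2))
    · exact Or.inr (Or.inr (Or.inr (Or.inl (FT S h1.1 h1.2))))

/-- ordinary classes with a double line, as a set -/
def WS (σ : ι → List V) (m : ι → ι) (C : Finset ι) (Cls : Set V) (s : Bool → V)
    (A : V → Set V) : Set V :=
  {w | Ordi σ m C Cls s w ∧ (Dk σ m C (A w)).Nonempty}

theorem WS_fin (S : DS E t σ m C col Cls s A X) : (WS σ m C Cls s A).Finite := by
  have h : ∀ w : WS σ m C Cls s A, ∃ u, u ∈ Dk σ m C (A w) := fun w => w.2.2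
  choose f hf using h
  exact Set.finite_coe_iff.1 (Finite.of_injective f fun a b e =>
    Subtype.ext (DB' S b.2.1.1 a.2.1.1 (hf b) (e ▸ hf a)))

/-- ordinary classes with a double line -/
noncomputable def WW (σ : ι → List V) (m : ι → ι) (C : Finset ι) (Cls : Set V) (s : Bool → V)
    (A : V → Set V) : Finset V :=
  if h : (WS σ m C Cls s A).Finite then h.toFinset else ∅

theorem mem_WW (S : DS E t σ m C col Cls s A X) {w : V} :
    w ∈ WW σ m C Cls s A ↔ Ordi σ m C Cls s w ∧ (Dk σ m C (A w)).Nonempty := by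
  rw [WW, dif_pos (WS_fin S), Set.Finite.mem_toFinset]
  rfl

/-- double lines of ordinary classes -/
noncomputable def Do (σ : ι → List V) (m : ι → ι) (C : Finset ι) (Cls : Set V) (s : Bool → V)
    (A : V → Set V) : Finset ι :=
  Finset.univ.filter fun u => ∃ w ∈ WW σ m C Cls s A, u ∈ Dk σ m C (A w)

theorem mem_Do {u : ι} :
    u ∈ Do σ m C Cls s A ↔ ∃ w ∈ WW σ m C Cls s A, u ∈ Dk σ m C (A w) := by
  simp only [Do, Finset.mem_filter, Finset.mem_univ, true_and]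

theorem WW_card (hm : Pr m) (hCm : ∀ u, m u ∈ C → u ∈ C) (S : DS E t σ m C col Cls s A X) :
    2 * (WW σ m C Cls s A).card ≤ (Do σ m C Cls s A).card := by
  refine pairs_count hm _ (fun i hi => ?_) _ (fun w i => i ∈ Dk σ m C (A w)) ?_ ?_
  · obtain ⟨w, hw, hi⟩ := mem_Do.1 hi
    exact mem_Do.2 ⟨w, hw, Dk_m hm hCm hi⟩
  · intro w hw
    obtain ⟨u, hu⟩ := ((mem_WW S).1 hw).2
    exact ⟨u, mem_Do.2 ⟨w, hw, hu⟩, hu, Dk_m hm hCm hu⟩
  · intro g hg g' hg' i _ a b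
    exact DB' S ((mem_WW S).1 hg').1.1 ((mem_WW S).1 hg).1.1 b a

theorem WW_card' (hm : Pr m) (hCm : ∀ u, m u ∈ C → u ∈ C) (S : DS E t σ m C col Cls s A X)
    {w : V} (hw : w ∈ WW σ m C Cls s A) :
    (Dk σ m C (A w)).card + 2 * (WW σ m C Cls s A).card ≤ (Do σ m C Cls s A).card + 2 := by
  have h1 : 2 * ((WW σ m C Cls s A).erase w).card ≤
      (Do σ m C Cls s A \ Dk σ m C (A w)).card := by
    refine pairs_count hm _ (fun i hi => ?_) _ (fun w i => i ∈ Dk σ m C (A w)) ?_ ?_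
    · obtain ⟨h1, h2⟩ := Finset.mem_sdiff.1 hi
      obtain ⟨w', hw', hi⟩ := mem_Do.1 h1
      refine Finset.mem_sdiff.2 ⟨mem_Do.2 ⟨w', hw', Dk_m hm hCm hi⟩, fun e => h2 ?_⟩
      have := Dk_m hm hCm e
      rwa [hm.inv] at this
    · intro w' hw'
      obtain ⟨hne, hw'⟩ := Finset.mem_erase.1 hw'
      obtain ⟨u, hu⟩ := ((mem_WW S).1 hw').2
      exact ⟨u, Finset.mem_sdiff.2 ⟨mem_Do.2 ⟨w', hw', hu⟩, fun e =>
        hne (DB' S ((mem_WW S).1 hw).1.1 ((mem_WW S).1 hw').1.1 e hu)⟩, hu, Dk_m hm hCm hu⟩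
    · intro g hg g' hg' i _ a b
      exact DB' S ((mem_WW S).1 (Finset.mem_of_mem_erase hg')).1.1
        ((mem_WW S).1 (Finset.mem_of_mem_erase hg)).1.1 b a
  have h2 : Dk σ m C (A w) ⊆ Do σ m C Cls s A := fun u hu => mem_Do.2 ⟨w, hw, hu⟩
  have h3 := Finset.card_sdiff_add_card_eq_card h2
  have h4 := Finset.card_erase_add_one hw
  omega

theorem part_card (S : DS E t σ m C col Cls s A X) :
    (Dk σ m C (A (s false))).card + (Dk σ m C (A (s true))).card + (Do σ m C Cls s A).card +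
      (ND σ m C (Aall Cls A)).card ≤ Cᶜ.card := by
  have d1 : Disjoint (Dk σ m C (A (s false))) (Dk σ m C (A (s true))) :=
    Finset.disjoint_left.2 fun u a b => S.d0' (DB' S (S.d0 true).1 (S.d0 false).1 b a)
  have d2 : Disjoint (Dk σ m C (A (s false)) ∪ Dk σ m C (A (s true))) (Do σ m C Cls s A) :=
    Finset.disjoint_left.2 fun u a b => by
      obtain ⟨w, hw, b⟩ := mem_Do.1 b
      have ho := ((mem_WW S).1 hw).1
      rcases Finset.mem_union.1 a with a | a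
      · exact ho.2.2 false (DB' S (S.d0 false).1 ho.1 a b)
      · exact ho.2.2 true (DB' S (S.d0 true).1 ho.1 a b)
  have d3 : Disjoint (Dk σ m C (A (s false)) ∪ Dk σ m C (A (s true)) ∪ Do σ m C Cls s A)
      (ND σ m C (Aall Cls A)) :=
    Finset.disjoint_left.2 fun u a b => by
      apply (mem_ND.1 b).2
      rcases Finset.mem_union.1 a with a | a
      · rcases Finset.mem_union.1 a with a | a
        · exact Dk_all (S.d0 false).1 a
        · exact Dk_all (S.d0 true).1 a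
      · obtain ⟨w, hw, a⟩ := mem_Do.1 a
        exact Dk_all ((mem_WW S).1 hw).1.1 a
  rw [← Finset.card_union_of_disjoint d1, ← Finset.card_union_of_disjoint d2,
    ← Finset.card_union_of_disjoint d3]
  refine Finset.card_le_card fun u hu => Finset.mem_compl.2 ?_
  simp only [Finset.mem_union] at hu
  rcases hu with ((a | a) | a) | a
  · exact (mem_Dk.1 a).1
  · exact (mem_Dk.1 a).1
  · obtain ⟨w, -, a⟩ := mem_Do.1 a
    exact (mem_Dk.1 a).1
  · exact (mem_ND.1 a).1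

/-- the region of one colour -/
def YY (t : ι → V) (σ : ι → List V) (m : ι → ι) (C : Finset ι) (col : ι → Bool) (Cls : Set V)
    (s : Bool → V) (A X : V → Set V) (b : Bool) : Set V :=
  {v | (∃ d ∈ C, col d = b ∧ v = t d) ∨ v ∈ X (s b) ∨
    ∃ w, Ordi σ m C Cls s w ∧ w ∉ WW σ m C Cls s A ∧ (v = w ∨ v ∈ X w)}

theorem two_le (hm : Pr m) {I : Finset ι} (hI : ∀ i ∈ I, m i ∈ I) {u : ι} (hu : u ∈ I) :
    2 ≤ I.card := by
  rw [← Finset.card_pair (hm.fpf u).symm]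
  refine Finset.card_le_card fun x hx => ?_
  rcases Finset.mem_insert.1 hx with rfl | hx
  · exact hu
  · rw [Finset.mem_singleton.1 hx]; exact hI u hu

theorem eq_pair (hm : Pr m) {I : Finset ι} (hI : ∀ i ∈ I, m i ∈ I) {u x : ι} (hu : u ∈ I)
    (h2 : I.card ≤ 2) (hx : x ∈ I) : x = u ∨ x = m u := by
  have h1 : ({u, m u} : Finset ι) = I := by
    refine Finset.eq_of_subset_of_card_le (fun x hx => ?_) ?_
    · rcases Finset.mem_insert.1 hx with rfl | hx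
      · exact hu
      · rw [Finset.mem_singleton.1 hx]; exact hI u hu
    · rwa [Finset.card_pair (hm.fpf u).symm]
  rw [← h1] at hx
  simpa using hx

theorem col_card (hl : Pr l) (hCl : ∀ u ∈ C, l u ∈ C) (c1 : ∀ x, col (l x) = !col x) (b : Bool) :
    (C.filter fun d => col d = b).card ≤ (C.filter fun d => col d = !b).card := by
  refine Finset.card_le_card_of_injOn l (fun x hx => ?_) fun x _ y _ e => hl.inj e
  obtain ⟨h1, h2⟩ := Finset.mem_filter.1 hx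
  exact Finset.mem_filter.2 ⟨hCl x h1, by rw [c1, h2]⟩

end CSx

end

end Pool.Agent.P.MP_4197d5_co.Inf
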