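import Pool.Agent.P.MP_4197d5_co.DSa

/-! Arbitrary vertex sets: dominator classes. -/

namespace Pool.Agent.P.MP_4197d5_co.Inf

open Classical

set_option linter.unusedSectionVars false

/-- two disjoint paths in an arbitrary digraph: finitely many walks witness the hypothesis -/
theorem two_pathsI {V : Type} {D : V → V → Prop} {K : Set V} {x y : V} (hxy : x ≠ y)
    (hx' : x ∉ K) (hy' : y ∉ K) (h : ∀ ρ, Av D K {ρ} x ∨ Av D K {ρ} y) :
    ∃ (P Q : List V) (a b : V), a ∈ K ∧ b ∈ K ∧ (P ++ a :: (Q ++ [b])).Nodup ∧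
      (x :: (P ++ [a])).IsChain D ∧ (y :: (Q ++ [b])).IsChain D := by
  have h0 : ∀ ρ : V, ∃ L : List V, ∃ a ∈ ({x, y} : Finset V), ∃ b ∈ K,
      MP_a3bdf6_co.Wk D a b L ∧ ρ ∉ L := fun ρ => by
    rcases h ρ with h' | h'
    · obtain ⟨b, hb, L, r1, r2⟩ := h'.rch
      exact ⟨L, x, by simp, b, hb, r1, fun a => r2 ρ a rfl⟩
    · obtain ⟨b, hb, L, r1, r2⟩ := h'.rch
      exact ⟨L, y, by simp, b, hb, r1, fun a => r2 ρ a rfl⟩
  choose w hw using h0
  set W : Finset V := (w x).toFinset ∪ (w x).toFinset.biUnion fun ρ => (w ρ).toFinset with hW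
  have key : ∀ ρ : V, ∃ ρ', (∀ z ∈ w ρ', z ∈ W) ∧ ρ ∉ w ρ' := fun ρ => by
    by_cases e : ρ ∈ w x
    · obtain ⟨-, -, -, -, -, r⟩ := hw ρ
      refine ⟨ρ, fun z hz => ?_, r⟩
      rw [hW, Finset.mem_union, Finset.mem_biUnion]
      exact Or.inr ⟨ρ, List.mem_toFinset.2 e, List.mem_toFinset.2 hz⟩
    · exact ⟨x, fun z hz => Finset.mem_union_left _ (List.mem_toFinset.2 hz), e⟩
  obtain ⟨T, hT0, hc⟩ := MP_a3bdf6_co.menger_aux 2 ((W ×ˢ W).filter fun p => D p.1 p.2) {x, y}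
    (W.filter (· ∈ K)) (by
    intro Y hY
    have : Nonempty V := ⟨x⟩
    obtain ⟨ρ, hρ⟩ := Finset.card_le_one_iff_subset_singleton.1 (Nat.lt_succ_iff.1 hY)
    obtain ⟨ρ', r1, r2⟩ := key ρ
    obtain ⟨a, ha, b, hb, r3, -⟩ := hw ρ'
    refine ⟨a, ha, b, Finset.mem_filter.2 ⟨r1 b ?_, hb⟩, w ρ', r3.mono fun u hu v hv e => ?_,
      fun z hz hz' => r2 (Finset.mem_singleton.1 (hρ hz') ▸ hz)⟩
    · obtain ⟨L, e⟩ := r3.eq_concat
      rw [e]; simp
    · exact Finset.mem_filter.2 ⟨Finset.mem_product.2 ⟨r1 u hu, r1 v hv⟩, e⟩)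
  have hT := hT0.monoE (E' := D) fun u v e => (Finset.mem_filter.1 e).2
  have hcard : ({x, y} : Finset V).card ≤ T.card := by rw [hc, Finset.card_pair hxy]
  obtain ⟨P, hP, a, ha, w1⟩ := hT.cover_start hcard (a := x) (by simp)
  obtain ⟨Q, hQ, b, hb, w2⟩ := hT.cover_start hcard (a := y) (by simp)
  have ha' : a ∈ K := (Finset.mem_filter.1 ha).2
  have hb' : b ∈ K := (Finset.mem_filter.1 hb).2
  have hd : ∀ z ∈ P, z ∉ Q := fun z h1 h2 => by
    have := hT.2 P hP Q hQ z h1 h2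
    subst this
    exact hxy (w1.ends_unique w2).1
  have n1 := (hT.1 P hP).1
  have n2 := (hT.1 Q hQ).1
  have c1 := w1.chain
  have c2 := w2.chain
  obtain ⟨P0, rfl⟩ := wk_shape w1 fun e => hx' (e ▸ ha')
  obtain ⟨Q0, rfl⟩ := wk_shape w2 fun e => hy' (e ▸ hb')
  refine ⟨P0, Q0, a, b, ha', hb', ?_, c1, c2⟩
  have : P0 ++ a :: (Q0 ++ [b]) = (P0 ++ [a]) ++ (Q0 ++ [b]) := by simp
  rw [this, List.nodup_append]
  refine ⟨(List.nodup_cons.1 n1).2, (List.nodup_cons.1 n2).2, ?_⟩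
  rintro z h1 z' h2 rfl
  exact hd z (List.mem_cons_of_mem _ h1) (List.mem_cons_of_mem _ h2)

section

variable {V ι : Type} [Fintype ι] {E : V → V → Prop} {t : ι → V} {l : ι → ι}
  {σ : ι → List V} {m : ι → ι} {c : ι} {col : ι → Bool} {C : Finset ι} {s : Bool → V}

noncomputable def NC (C : Finset ι) : Finset ι := Finset.univ.filter (· ∉ C)

@[simp] theorem mem_NC {u : ι} : u ∈ NC C ↔ u ∉ C := by simp [NC]

def AK (E : V → V → Prop) (t : ι → V) (σ : ι → List V) (m : ι → ι) (C : Finset ι)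
    (col : ι → Bool) (s : Bool → V) (κ : V) : Set V :=
  Acl E (line σ m) (NC C) Set.univ (Far E t σ m C col s) (Lev E t σ m C col s κ)

def XK (E : V → V → Prop) (t : ι → V) (σ : ι → List V) (m : ι → ι) (C : Finset ι)
    (col : ι → Bool) (s : Bool → V) (κ : V) : Set V :=
  Beh E t σ m C col s κ ∪
    Xcl E (line σ m) (NC C) Set.univ (Far E t σ m C col s) (Lev E t σ m C col s κ)

theorem DHnm (H : DH E t σ m (cl l m ∅ c) col s) (hl : Pr l)
    (hmin : ∀ x, (cl l m ∅ c).card ≤ (cl l m ∅ x).card)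
    (c1 : ∀ x, col (l x) = !col x) (c2 : ∀ x, col (m x) = !col x) (hopt : ¬ Imp E t l m ∅)
    {κ κ' : V} (h : Slf (Arc E t σ m (cl l m ∅ c) col s) (Snk t σ m (cl l m ∅ c) s) κ)
    (h' : Slf (Arc E t σ m (cl l m ∅ c) col s) (Snk t σ m (cl l m ∅ c) s) κ') (hne : κ ≠ κ')
    (u : ι) (hu : u ∉ cl l m ∅ c) (x : V) (hx : x ∈ line σ m u) (y : V) (hy : y ∈ line σ m u)
    (ha : x ∈ AK E t σ m (cl l m ∅ c) col s κ) (hb : y ∈ AK E t σ m (cl l m ∅ c) col s κ') :
    x = y := by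
  by_contra hxy
  obtain ⟨τ, -, hτ⟩ := H.st.tc H.hs hl (NC (cl l m ∅ c)) (by simp)
    (fun u hu => mem_NC.2 fun a => mem_NC.1 hu ((H.cm u).1 a)) _ _ _ _ (fun o ho => ho.1)
    (fun v hv a => a.1 hv.1.on) (fun v hv a => a.1 hv.1.on) (mem_NC.2 hu) hx hy hxy ha hb
  obtain ⟨σ', m', U', p, q, x', y', a1, a2, a3, -, a5, a6, -, a8, -, a10, a11, a12, a13, a14,
    a15⟩ := hτ m H.st.hm (fun _ _ _ _ => rfl)
  have hq := a8 rfl
  subst hq
  have hU : U' = {p, m' p} := by ext i; simp [a6]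
  subst hU
  obtain ⟨R1, e1⟩ := List.getLast?_eq_some_iff.1 a11
  obtain ⟨R2, e2⟩ := List.getLast?_eq_some_iff.1 a13
  have hxy' : x' ≠ y' := fun e => a5 (a1.eq_of_mem (x := x') (by simp [e1]) (by simp [e2, e]))
  obtain ⟨P, Q, a, b, ka, kb, hn, ch1, ch2⟩ := two_pathsI hxy'
    (fun a => H.not_both (H.snk_onc a) a12.1) (fun a => H.not_both (H.snk_onc a) a14.1)
    (H.sep h h' hne a12 a14 hxy')
  obtain ⟨v, ⟨d1, hd1, b1⟩, b2, b3, -, b5⟩ := H.conv ka P x' ch1
  obtain ⟨v', ⟨d2, hd2, f1⟩, f2, f3, -, f5⟩ := H.conv kb Q y' ch2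
  have hab : a ≠ b := by
    rintro rfl
    rw [List.nodup_append] at hn
    exact (List.nodup_cons.1 hn.2.1).1 (by simp)
  refine hopt (c_event H.hs hl H.st hmin c1 c2 a1 a2
    (fun d hd => a10 d (by simp) (by simpa using hd)) (by simpa using a3) (q1 := P) (q2 := Q)
    (mem_cl.1 hd1) (mem_cl.1 hd2) b1 f1 (fun e => hab (by rw [← b2, ← f2, e])) ?_ ?_ ?_ ?_ ?_)
  · rintro i j rfl rfl e
    apply hab
    rw [← b2, ← f2, H.nod_t (H.onc_t.1 ⟨d1, hd1, b1⟩), H.nod_t (H.onc_t.1 ⟨d2, hd2, f1⟩), e]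
  · exact hn.sublist (by simp)
  · intro w hw a
    have : ¬ On σ w ∧ Av _ _ ∅ w := (List.mem_append.1 hw).elim (b5 w) (f5 w)
    exact (a15 w a).elim this.1 fun a => a.2 this.2
  · rw [e1]; simpa using chain_glue (e1 ▸ a1.chain p) b3
  · rw [e2]; simpa using chain_glue (e2 ▸ a1.chain _) f3

theorem DHak (H : DH E t σ m C col s) {κ v : V} (h : Tg σ m C κ)
    (hv : v ∈ AK E t σ m C col s κ) : v = κ := by
  obtain ⟨n, hn⟩ := hv
  induction n generalizing v with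
  | zero => exact H.lev_tg h hn
  | succ n ih =>
    rcases hn with hn | ⟨-, w, ⟨-, u, -, hb⟩, -⟩
    · exact ih hn
    · obtain ⟨f, -, g, -, a1, a2, a3, -⟩ := hb.two (H.st.line_nodup u)
      exact absurd ((ih a1).trans (ih a2).symm) a3

theorem ds_exists (hs : ∀ x y, E x y → E y x) (hl : Pr l) (h : St E t σ m ∅)
    (hmin : ∀ x, (cl l m ∅ c).card ≤ (cl l m ∅ x).card)
    (c1 : ∀ x, col (l x) = !col x) (c2 : ∀ x, col (m x) = !col x) (hopt : ¬ Imp E t l m ∅) :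
    ∃ Cls s A X, DS E t σ m (cl l m ∅ c) col Cls s A X := by
  obtain ⟨s, H⟩ : ∃ s, DH E t σ m (cl l m ∅ c) col s := by
    refine ⟨fun b => t (if col c = b then c else l c), hs, h, fun d => ?_, fun b => ?_⟩
    · simp only [mem_cl]
      exact ⟨fun a => a.trans (cc.stm0 d).symm, fun a => a.trans (cc.stm0 d)⟩
    · refine ⟨_, ?_, ?_, rfl⟩
      · split_ifs
        · exact mem_cl.2 (cc.refl c)
        · exact mem_cl.2 (cc.stl c)
      · split_ifs with e
        · exact e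
        · rw [c1]; cases b <;> simp_all
  have nm := fun κ κ' => DHnm H (κ := κ) (κ' := κ') hl hmin c1 c2 hopt
  generalize cl l m ∅ c = C at H nm
  have sk : ∀ b, s b ∈ Snk t σ m C s := fun b => Or.inl ⟨b, rfl⟩
  have itr : ∀ κ x, x ∈ Itr (line σ m) (NC C) Set.univ (AK E t σ m C col s κ) →
      ∃ u, u ∉ C ∧ Btw (line σ m u) (AK E t σ m C col s κ) x :=
    fun κ x ⟨_, u, a, b⟩ => ⟨u, mem_NC.1 a, b⟩
  have nm2 : ∀ κ κ', Slf (Arc E t σ m C col s) (Snk t σ m C s) κ →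
      Slf (Arc E t σ m C col s) (Snk t σ m C s) κ' → κ ≠ κ' → ∀ x, x ∈ AK E t σ m C col s κ →
      x ∉ Itr (line σ m) (NC C) Set.univ (AK E t σ m C col s κ') := by
    intro κ κ' a b hne x hx hx'
    obtain ⟨u, hu, hb⟩ := itr _ _ hx'
    obtain ⟨f, f1, -, -, f2, -, -, f3, -⟩ := hb.two (h.line_nodup u)
    exact f3 (nm κ κ' a b hne u hu x hb.mem f f1 hx f2).symm
  refine ⟨{κ | Slf (Arc E t σ m C col s) (Snk t σ m C s) κ}, s, AK E t σ m C col s,
    XK E t σ m C col s, fun b => ⟨Slf.of_sink (sk b), H.not_both (H.onc_s b)⟩,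
    fun e => by simpa using H.s_inj e, fun κ a κ' b => nm κ κ' a b, fun κ a b v => ?_, ?_, ?_,
    fun κ _ x u hu hb => Or.inr (Or.inl ⟨trivial, u, mem_NC.2 hu, hb⟩), ?_, ?_, ?_, ?_, ?_, ?_⟩
  · refine ⟨DHak H b, ?_⟩
    rintro rfl
    exact A0_sub ⟨b, a.1, Or.inl fun h => h.not_mem rfl⟩
  · intro κ hκ hκ' x hx v e
    rcases hx with hx | hx
    · have hxc : ¬ OnC σ m C x := fun a => hx.1 a.on
      by_cases hv : Tg σ m C v
      · refine Or.inr (Or.inl ⟨A0_sub ⟨hv, ?_, Or.inr ⟨x, hx, hs _ _ e⟩⟩, hv⟩)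
        exact Av.step (by simp) (H.arc_free (fun a => H.not_both a hv) (hs _ _ e) hx.1) hx.2.1
      · have h1 : OnC σ m C v ∨ Av (Arc E t σ m C col s) (Snk t σ m C s) ∅ v := by
          by_cases a : OnC σ m C v
          · exact Or.inl a
          · exact Or.inr (Av.step (by simp) (H.arc_free a (hs _ _ e) hx.1) hx.2.1)
        rcases H.root hκ hv h1 (Av.next hx.2.2.1 hx.2.2.2 ⟨hxc, v, e, hv, rfl⟩) with a | a
        · exact Or.inl (Or.inl a)
        · exact Or.inr (Or.inr a)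
    · rcases Xcl_adj hx e with a | a
      · exact Or.inl (Or.inr a.2)
      by_cases hv : Tg σ m C v
      · exact Or.inr (Or.inl ⟨a.2, hv⟩)
      have h1 : OnC σ m C v ∨ Av (Arc E t σ m C col s) (Snk t σ m C s) ∅ v := by
        by_cases b : On σ v
        · exact Or.inl ((H.on_cases b).resolve_right hv)
        · right; by_contra b'; exact a.1 ⟨b, b'⟩
      rcases Xcl_cases hx with b | b
      · exact absurd (Av.step (by simp) ⟨fun a => b.1 a.on, v, e, hv, rfl⟩ (H.rch_nod h1)) b.2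
      obtain ⟨u, hu, hb⟩ := itr _ _ b
      have hxt : Tg σ m C x := ⟨u, hu, hb.mem⟩
      have harc : Arc E t σ m C col s x (nod t C col s v) :=
        ⟨fun a => H.not_both a hxt, v, e, hv, rfl⟩
      have hr := Av.step (S := ∅) (by simp) harc (H.rch_nod h1)
      obtain ⟨κ', k1, k2⟩ := top_exists hr
      have : κ' = κ := by
        by_contra hne
        exact nm2 κ' κ k1 hκ hne x (A0_sub ⟨hxt, hr, Or.inl k2⟩) b
      subst this
      rcases H.root hκ hv h1 (Av.next k2 (fun e => hκ' (e ▸ hxt)) harc) with a | a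
      · exact Or.inl (Or.inl a)
      · exact Or.inr (Or.inr a)
  · intro κ _ x hx
    rcases hx with hx | hx
    · exact Or.inl hx.1
    · rcases Xcl_cases hx with b | b
      · exact Or.inl b.1
      · exact Or.inr (itr _ _ b)
  · intro w κ hw v e
    obtain ⟨w1, w2, w3⟩ : nod t C col s w = κ ∧ ¬ Tg σ m C w ∧
        Slf (Arc E t σ m C col s) (Snk t σ m C s) κ := by
      rcases hw with ⟨d, hd, rfl, rfl⟩ | ⟨a, rfl⟩
      · exact ⟨H.nod_t hd, H.not_both (H.onc_t.2 hd), Slf.of_sink (sk _)⟩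
      · refine ⟨DH.nod_of ?_, a.2.1, a.1⟩
        rintro ⟨d, hd, rfl⟩
        cases a.1.1 with
        | sink b _ =>
          rcases b with ⟨b, e⟩ | b
          · exact a.2.2 b e
          · exact b.2 d rfl
        | step _ b _ => exact b.1 (H.onc_t.2 hd)
    by_cases hv : OnC σ m C v
    · left
      have k := Slf.of_sink (D := Arc E t σ m C col s) (H.nod_snk hv)
      rcases H.root k (H.not_both hv) (Or.inl hv) (fun a => a.not_mem rfl) with a | a
      · exact absurd hv.on a.1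
      · exact ⟨_, a⟩
    have harc : Arc E t σ m C col s v κ := ⟨hv, w, hs _ _ e, w2, w1⟩
    have hr := Av.step (S := ∅) (by simp) harc w3.1
    obtain ⟨κ', k1, k2⟩ := top_exists hr
    by_cases e' : v = κ'
    · subst e'
      by_cases ht : Tg σ m C v
      · exact Or.inr (Or.inr (Or.inr ⟨k1, ht⟩))
      · exact Or.inl ⟨v, Or.inr ⟨⟨k1, ht, fun b e => hv (e ▸ H.onc_s b)⟩, rfl⟩⟩
    have := w3.eq (Av.next k2 e' harc)
    subst this
    by_cases ht : Tg σ m C v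
    · exact Or.inr (Or.inr (Or.inl ⟨A0_sub ⟨ht, hr, Or.inl k2⟩, ht⟩))
    · exact Or.inr (Or.inl (Or.inl ⟨fun a => (H.on_cases a).elim hv ht, hr, k2, e'⟩))
  · intro d hd n hn hn'
    refine ⟨Slf.of_sink (Or.inr ⟨⟨d, hd, hn⟩, hn'⟩), H.not_both ⟨d, hd, hn⟩, fun b e => ?_⟩
    obtain ⟨d', -, -, e'⟩ := H.hr b
    exact hn' d' (e.trans e')
  · rintro κ a i rfl
    by_cases hd : i ∈ C
    · cases a.1.1 with
      | sink b _ =>
        rcases b with ⟨b, e⟩ | b
        · exact a.2.2 b e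
        · exact b.2 i rfl
      | step _ b _ => exact b.1 (H.onc_t.2 hd)
    · exact a.2.1 ⟨i, hd, h.t_mem_line.2 (Or.inl rfl)⟩
  · have k : ∀ κ κ' x, x ∈ Beh E t σ m C col s κ → x ∉ Xcl E (line σ m) (NC C) Set.univ
        (Far E t σ m C col s) (Lev E t σ m C col s κ') := by
      intro κ κ' x a b
      rcases Xcl_cases b with b | b
      · exact b.2 a.2.1
      · obtain ⟨u, -, hb⟩ := itr _ _ b
        exact a.1 (On.of_line hb.mem)
    have on : ∀ κ x, x ∈ Itr (line σ m) (NC C) Set.univ (AK E t σ m C col s κ) → On σ x :=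
      fun κ x b => let ⟨_, _, hb⟩ := itr _ _ b; On.of_line hb.mem
    intro κ hκ κ' hκ' hne x a b
    rcases a with a | a <;> rcases b with b | b
    · exact hne (top_unique a.2.1 hκ hκ' a.2.2.1 b.2.2.1)
    · exact k _ _ x a b
    · exact k _ _ x b a
    · rcases a with a | ⟨w, a, a'⟩ <;> rcases b with b | ⟨w', b, b'⟩
      · obtain ⟨u, hu, hb⟩ := itr _ _ a
        obtain ⟨u', hu', hb'⟩ := itr _ _ b
        obtain ⟨f, f1, g, g1, f2, g2, fg, -⟩ := hb.two (h.line_nodup u)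
        obtain ⟨f', f1', -, -, f2', -⟩ := hb'.two (h.line_nodup u')
        have : f' ∈ line σ m u := by
          rcases h.line_disj hb.mem hb'.mem with rfl | rfl
          · exact f1'
          · exact (mem_line_m h.hm).1 f1'
        exact fg ((nm κ κ' hκ hκ' hne u hu f f1 f' this f2 f2').trans
          (nm κ κ' hκ hκ' hne u hu g g1 f' this g2 f2').symm)
      · exact b'.mem.1 (on _ _ a)
      · exact a'.mem.1 (on _ _ b)
      · exact nm2 κ κ' hκ hκ' hne w'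
          (Acl_of_hit a (fun c => c.1 (on _ _ b)) (Hit.of_RO hs a' b')) b
  · intro κ _ w hw a
    rcases a with a | a
    · exact a.2.2.2 (Slf.eq hw.1 a.2.2.1).symm
    · rcases Xcl_cases a with b | b
      · exact b.2 hw.1.1
      · obtain ⟨u, hu, hb⟩ := itr _ _ b
        exact hw.2.1 ⟨u, hu, hb.mem⟩
  · intro b hX v hv ht
    rcases Acl_cases hv with a | ⟨-, x, a, -⟩
    · rcases a.2.2 with a' | ⟨x, a', -⟩
      · cases a.2.1 with
        | sink k _ => exact absurd ht (H.not_both (H.snk_onc k))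
        | step _ k1 k2 =>
          obtain ⟨k3, v0, k4, k5, rfl⟩ := id k1
          have h1 : OnC σ m C v0 ∨ Av (Arc E t σ m C col s) (Snk t σ m C s) ∅ v0 := by
            by_cases a : OnC σ m C v0
            · exact Or.inl a
            · rw [H.nod_free a] at k2; exact Or.inr k2
          rcases H.root (Slf.of_sink (sk b)) k5 h1
            (Av.next a' (fun e => k3 (e ▸ H.onc_s b)) k1) with r | ⟨d, hd, r1, rfl⟩ | r
          · exact absurd (Or.inl r) (hX v0)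
          · exact ⟨d, hd, (H.s_inj r1).symm, hs _ _ k4⟩
          · exact absurd rfl (r.1.2.2 b)
      · exact absurd (Or.inl a') (hX x)
    · exact absurd (Or.inr a) (hX x)

end

end Pool.Agent.P.MP_4197d5_co.Inf
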