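import Pool.Agent.P.MP_4197d5_co.Inf.TS
import Pool.Agent.P.MP_4197d5_co.Inf.CS
import Pool.Agent.P.MP_4197d5_co.Inf.DSx
import Pool.Agent.P.MP_4197d5_co.PhiC
import Pool.Agent.P.MP_4197d5_co.Orbit

/-! Arbitrary vertex sets: the main theorem in the abstract setting. -/

namespace Pool.Agent.P.MP_4197d5_co.Inf

open Classical

set_option linter.unusedSectionVars false

section

section SecondS

variable {V ι : Type} [Fintype ι] {E : V → V → Prop} {t : ι → V} {l : ι → ι} {k : ℕ}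
  {σ : ι → List V} {m : ι → ι} {C : Finset ι} {col : ι → Bool} {k1 k2 : ℕ} {Γ : Finset V}
  {M : Set V} {D : Bool → Finset ι} {X : Bool → Set V} {pre mid : ι → List V} {gate : ι → V}
  {c : Bool} {τ si sj : ι} {σ3 : ι → List V} {m3 : ι → ι} {c0 : ι}

/-- Apply `St.pc` to `σ3` with `e false = m si`, `e true = m sj`, `N` the indices of `C` outside
the pairs of `si, sj` (`|N| = 2 k1 - 4`), `O = M \ On σ3`, `Src = M`. The first alternative gives
`Imp` by `q_co`, the second by `q_ev2`, and so does the first alternative of `theta`. Otherwise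
let `Fr b` be the members of `A b` on lines in `N` that are not `Btw`;
`|Fr false| + |Fr true| ≤ |N|` (`St.fr_count`). `X' b ⊆ M`, and by `n1`, `N1`, `N2`, `Mon`, `Xd`,
`QF.on` the neighbours of `{t (e b)} ∪ X' b` lie in this set or in
`Fr b ∪ {t si, t sj} ∪ Γ`, or (only for `t (e b)`) in `nbD`. If `X' b` has a member other than
`t (e b)`, `Cx.hk_nt` gives `k ≤ |Fr b| + 2 + |Γ| + 1`; otherwise `Cx.deg_t` gives
`k ≤ |Fr b| + 2 + |Γ| + |nbD|`. With `|Γ| + |D| ≤ k2`, `2 ≤ |D|` and `theta` this is absurd. -/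
theorem secondR (hC : Cx E t l k) (hc0 : C = cl l m ∅ c0)
    (hmin : ∀ x, (cl l m ∅ c0).card ≤ (cl l m ∅ x).card)
    (S : CS E t l k σ m C col k1 k2 Γ M D X pre mid gate)
    (Q : QF E t σ m C col D X c τ si sj σ3 m3) : Imp E t l m ∅ := by
  have hm := S.st.hm
  have hm3 := Q.st.hm
  have hcc : ∀ x, x ∈ C ↔ cc l m ∅ c0 x := fun x => by rw [hc0, mem_cl]
  have hτC : τ ∉ C := S.DC c τ Q.hτ
  have hmτC : m τ ∉ C := S.DC c _ (S.Dm c τ Q.hτ)
  have hCm : ∀ x ∈ C, m x ∈ C := fun x hx => (S.hC x hx _).2 (cc.stm0 x)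
  have alt1 : (∃ σ' m', St E t σ' m' ∅ ∧ Co l m3 m') → Imp E t l m ∅ := by
    rintro ⟨σ', m', h1, h2⟩
    exact ⟨σ', m', ∅, h1, Or.inl rfl, q_co hC.hl hm hm3 S.coll S.colm (fun h => hτC ((hcc _).2 h))
      ((hcc _).1 Q.hi) ((hcc _).1 Q.hj) Q.ne (Q.ci.trans Q.cj.symm) Q.m1 Q.m2 Q.m3'
      (fun u a b c => (Q.oth u a b c).1) h2⟩
  obtain ⟨e, e0, e1⟩ : ∃ e : Bool → ι, e false = m si ∧ e true = m sj :=
    ⟨fun b => cond b (m sj) (m si), rfl, rfl⟩
  obtain ⟨N, hN⟩ : ∃ N : Finset ι, ∀ u, u ∈ N ↔ u ∈ C ∧ Out m si sj u :=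
    ⟨C.filter (Out m si sj), fun u => Finset.mem_filter⟩
  have hoth : ∀ u ∈ N, m3 u = m u ∧ line σ3 m3 u = line σ m u := fun u hu =>
    Q.oth u (fun h => hτC (h ▸ ((hN u).1 hu).1)) (fun h => hmτC (h ▸ ((hN u).1 hu).1))
      ((hN u).1 hu).2
  have hNm : ∀ u ∈ N, m3 u ∈ N := fun u hu => by
    rw [(hoth u hu).1]
    exact (hN _).2 ⟨hCm u ((hN u).1 hu).1, ((hN u).1 hu).2.par hm⟩
  have st3 : St E t σ3 m3 {e false, e true} := by rw [e0, e1]; exact Q.st
  have me : ∀ b, m3 (e b) = e (!b) := by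
    rintro (_ | _)
    · rw [Bool.not_false, e0, e1]; exact Q.m3'
    · rw [Bool.not_true, e0, e1, ← Q.m3', hm3.inv]
  have triv : ∀ b, σ3 (e b) = [t (e b)] := by
    rintro (_ | _)
    · rw [e0]; exact Q.s1
    · rw [e1]; exact Q.s2
  have hRl : ∀ u ∈ N, Rl e u := by
    rintro u hu (_ | _)
    · rw [e0]; exact ((hN u).1 hu).2.2.1
    · rw [e1]; exact ((hN u).1 hu).2.2.2.2
  rcases st3.pc hC.symm hC.hl me triv N hRl hNm {v | v ∈ M ∧ ¬ On σ3 v} M (fun o ho => ho.2) with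
    h | ⟨ρ, hρ, m0, σ', m', hx, h1, h2⟩ | ⟨A, X', hne⟩
  · exact alt1 h
  · rw [e0] at hx
    exact ⟨σ', m', ∅, h1, Or.inl rfl, q_ev2 hC.hl hm hm3 hmin (fun h => hτC ((hcc _).2 h))
      ((hcc _).1 Q.hi) ((hcc _).1 Q.hj) Q.m1 Q.m2 Q.m3' (fun u a b c => (Q.oth u a b c).1)
      ((hcc _).1 ((hN ρ).1 hρ).1) ((hN ρ).1 hρ).2 hx h2⟩
  rcases thetaR hC.toCb S Q with h | ⟨Y, hY, t1, t2, t3⟩
  · exact alt1 h
  exfalso
  obtain ⟨Fr, hFr⟩ : ∃ Fr : Bool → Finset V, ∀ b v, v ∈ Fr b ↔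
      v ∈ A b ∧ ∃ u ∈ N, v ∈ line σ3 m3 u ∧ ¬ Btw (line σ3 m3 u) (A b) v :=
    ⟨fun b => (onF σ3).filter fun v =>
      v ∈ A b ∧ ∃ u ∈ N, v ∈ line σ3 m3 u ∧ ¬ Btw (line σ3 m3 u) (A b) v, fun b v => by
      rw [Finset.mem_filter]
      exact ⟨And.right, fun a => ⟨by
        obtain ⟨-, u, -, b, -⟩ := a
        exact mem_onF.2 (On.of_line b), a⟩⟩⟩
  have hF := (st3.fr_count N hNm A Fr (fun b v hv => (hFr b v).1 hv) hne.n5).1
  have hCc : C.card = 2 * k1 := by
    have h1 := Finset.card_filter_add_card_filter_not (s := C) (fun d => col d = false)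
    have h2 := S.k1c true
    have h3 := S.k1c false
    simp only [Bool.not_eq_false] at h1
    omega
  have hNc : N.card + 4 ≤ 2 * k1 := by
    have ci' : col (m si) = !c := by rw [S.colm, Q.ci]
    have cj' : col (m sj) = !c := by rw [S.colm, Q.cj]
    have n1 : si ≠ m si := (hm.fpf si).symm
    have n2 : si ≠ m sj := fun h => by have := Q.ci; rw [h, cj'] at this; simp at this
    have n3 : m si ≠ sj := fun h => by have := Q.cj; rw [← h, ci'] at this; simp at this
    have n4 : m si ≠ m sj := fun h => Q.ne (hm.inj h)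
    have n5 : sj ≠ m sj := (hm.fpf sj).symm
    have h4 : ({si, m si, sj, m sj} : Finset ι).card = 4 := by
      rw [Finset.card_insert_of_notMem (by simp [n1, n2, Q.ne]),
        Finset.card_insert_of_notMem (by simp [n3, n4]), Finset.card_pair n5]
    have hd : Disjoint N {si, m si, sj, m sj} := by
      rw [Finset.disjoint_left]
      intro u hu hu'
      have := ((hN u).1 hu).2
      simp only [Finset.mem_insert, Finset.mem_singleton] at hu'
      unfold Out at this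
      tauto
    rw [← h4, ← Finset.card_union_of_disjoint hd, ← hCc]
    refine Finset.card_le_card fun u hu => ?_
    simp only [Finset.mem_union, Finset.mem_insert, Finset.mem_singleton] at hu
    rcases hu with hu | rfl | rfl | rfl | rfl
    · exact ((hN u).1 hu).1
    · exact Q.hi
    · exact hCm _ Q.hi
    · exact Q.hj
    · exact hCm _ Q.hj
  have XM : ∀ b, ∀ x ∈ X' b, x ∈ M := fun b x hx => (hne.n2 b x hx).elim (fun h => h.1) fun h => h.1
  have com : ∀ b v, v ∈ A b → ¬ (v ∈ M ∧ ¬ On σ3 v) → (v ∈ M ∨ ∃ d ∈ C, v = t d) →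
      v ∈ X' b ∨ v ∈ Fr b ∨ v = t si ∨ v = t sj ∨ v = t (e b) := by
    intro b v hA hO hv
    rcases hv with hv | ⟨d, hd, rfl⟩
    · have hon : On σ3 v := by
        by_contra h
        exact hO ⟨hv, h⟩
      rcases Q.on v hon with h | ⟨i, h⟩ | ⟨u, hu, h⟩
      · exact absurd hv (S.Xd c v h).2
      · exact absurd h (S.Mnt v hv i)
      · have huN : u ∈ N := (hN u).2 ⟨S.Mon v hv u h, hu⟩
        rw [← (hoth u huN).2] at h
        by_cases hb : Btw (line σ3 m3 u) (A b) v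
        · exact Or.inl (hne.n3 b v hv u huN hb)
        · exact Or.inr (Or.inl ((hFr b v).2 ⟨hA, u, huN, h, hb⟩))
    · by_cases ho : Out m si sj d
      · have hdN : d ∈ N := (hN d).2 ⟨hd, ho⟩
        exact Or.inr (Or.inl ((hFr b _).2 ⟨hA, d, hdN, st3.t_mem_line.2 (Or.inl rfl),
          fun hb => st3.btw_nt hb d rfl⟩))
      · have n4 := hne.n4 b
        rcases Out.cases ho with rfl | rfl | rfl | rfl
        · simp
        · cases b
          · simp [e0]
          · rw [Bool.not_true, e0] at n4; exact absurd hA n4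
        · simp
        · cases b
          · rw [Bool.not_false, e1] at n4; exact absurd hA n4
          · simp [e1]
  have heC : ∀ b, e b ∈ C ∧ col (e b) = !c := by
    rintro (_ | _)
    · rw [e0, S.colm, Q.ci]; exact ⟨hCm _ Q.hi, rfl⟩
    · rw [e1, S.colm, Q.cj]; exact ⟨hCm _ Q.hj, rfl⟩
  have key : ∀ b, k ≤ (Fr b).card + Γ.card + 3 ∨
      k ≤ (Fr b).card + Γ.card + 2 + (nbD E (D (!c)) Y gate (t (e b))).card := by
    intro b
    by_cases hx : ∃ x, x ∈ X' b
    · left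
      obtain ⟨x, hx⟩ := hx
      refine (hC.hk_nt (X' b) (Fr b ∪ Γ ∪ {t si, t sj, t (e b)}) x hx
        (fun y hy => S.Mnt y (XM b y hy)) fun y hy w hw => ?_).trans ?_
      · simp only [Finset.mem_union, Finset.mem_insert, Finset.mem_singleton]
        rcases hne.n1 b y w (Or.inr hy) hw with h | h | ⟨h1, h2⟩
        · tauto
        · tauto
        · rcases S.N1 y (XM b y hy) w hw with h | h | h
          · have := com b w h1 h2 (Or.inl h); tauto
          · tauto
          · have := com b w h1 h2 (Or.inr h); tauto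
      · refine (Finset.card_union_le _ _).trans (add_le_add (Finset.card_union_le _ _) ?_)
        exact Finset.card_le_three
    · right
      refine (hC.deg_t (e b) (Fr b ∪ Γ ∪ {t si, t sj} ∪ nbD E (D (!c)) Y gate (t (e b)))
        fun w hw => ?_).trans ?_
      · have hirr : w ≠ t (e b) := fun h => hC.irr _ (h ▸ hw)
        have hnx : w ∉ X' b := fun h => hx ⟨w, h⟩
        simp only [Finset.mem_union, Finset.mem_insert, Finset.mem_singleton, nbD,
          Finset.mem_filter, Finset.mem_image]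
        rcases hne.n1 b _ w (Or.inl rfl) hw with h | h | ⟨h1, h2⟩
        · exact absurd h hirr
        · exact absurd h hnx
        · rcases S.N2 (e b) (heC b).1 w hw with h | h | h | h | ⟨u, hu, h⟩
          · have := com b w h1 h2 (Or.inl h); tauto
          · tauto
          · have := com b w h1 h2 (Or.inr h); tauto
          · rw [(heC b).2] at h; exact Or.inr ⟨Or.inl ((hY w).2 h), hw⟩
          · rw [(heC b).2] at hu; exact Or.inr ⟨Or.inr ⟨u, hu, h.symm⟩, hw⟩
      · refine (Finset.card_union_le _ _).trans (Nat.add_le_add_right ?_ _)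
        refine (Finset.card_union_le _ _).trans (add_le_add (Finset.card_union_le _ _) ?_)
        exact Finset.card_le_two
  have k0 := key false
  have k1' := key true
  rw [e0] at k0
  rw [e1] at k1'
  have g1 := S.Gcard (!c)
  have g2 := S.two_le (!c)
  have g3 := S.hk
  omega

end SecondS

section StepCS

variable {V ι : Type} [Fintype ι] {E : V → V → Prop} {t : ι → V} {l : ι → ι} {k : ℕ}
  {σ : ι → List V} {m : ι → ι}

theorem stepCR (hC : Cx E t l k) (H1 : Sep E t l k (OneE t l)) (hM : EMax E t l)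
    (hn : ¬ Sol E t l) (h : St E t σ m ∅) : Imp E t l m ∅ := by
  by_contra hopt
  have : Nonempty ι := Fintype.card_pos_iff.1 (by rw [hC.card]; have := hC.kpos; omega)
  obtain ⟨c, -, hmin⟩ := Finset.exists_min_image Finset.univ (fun x => (cl l m ∅ x).card)
    Finset.univ_nonempty
  have hmin' : ∀ x, (cl l m ∅ c).card ≤ (cl l m ∅ x).card := fun x => hmin x (Finset.mem_univ x)
  have hp : ∃ p, ¬ cc l m ∅ c p := by
    by_contra hc
    push Not at hc
    exact hn ⟨σ, m, h, fun x y => (hc x).symm.trans (hc y)⟩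
  obtain ⟨col, c1, c2⟩ := exists_col hC.hl h.hm
  obtain ⟨Cls, s, A, X, S⟩ := ds_exists hC.symm hC.hl h hmin' c1 c2 hopt
  obtain ⟨k1, k2, Γ, M, D, X', pre, mid, gate, S'⟩ := cs_existsR hC H1 hM hn h hmin' hp c1 c2 S
  have h1 : 1 ≤ k1 := by
    rw [← S'.k1c (col c)]
    exact Finset.card_pos.2 ⟨c, by simp [cc.refl]⟩
  rcases Nat.eq_or_lt_of_le h1 with h1 | h1
  · exact S'.k1_oneR hC h1.symm
  obtain ⟨b, τ, hτ, si, hi, sj, hj, hne, ci, cj, q1, q2, a1, a2, a3, a4⟩ := S'.qdataR hC h1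
  obtain ⟨σ3, m3, Q⟩ := S'.qfam hC.symm hτ hi hj hne ci cj a1 a2 a3 a4
  exact hopt (secondR hC rfl hmin' S' Q)

end StepCS

section MainS

variable {V ι : Type} [Fintype ι] {t : ι → V} {l : ι → ι} {k : ℕ}

theorem sol_of_maxR {E : V → V → Prop} (hC : Cx E t l k) (H1 : Sep E t l k (OneE t l))
    (hM : EMax E t l) : Sol E t l := by
  by_contra hn
  obtain ⟨σ0, m0, U0, h0⟩ := init_famR hC.toCb hM hn
  let P : ℕ → Prop := fun n => ∃ σ m U, (St E t σ m U ∧ Sm m U) ∧ Phi l m U = n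
  have hb : ∀ m U, Phi l m U ≤ Fintype.card ι * 3 ^ Fintype.card ι := fun m U => by
    refine (Finset.sum_le_card_nsmul _ _ (3 ^ Fintype.card ι) fun x _ => ?_).trans ?_
    · exact Nat.pow_le_pow_right (by norm_num) (Finset.card_le_univ _)
    · exact Nat.mul_le_mul_right _ (Finset.card_le_univ _)
  have hP : P (Nat.findGreatest P (Fintype.card ι * 3 ^ Fintype.card ι)) :=
    Nat.findGreatest_spec (m := Phi l m0 U0) (hb _ _) ⟨σ0, m0, U0, h0, rfl⟩
  obtain ⟨σ1, m, U, ⟨h1, hsm⟩, hphi⟩ := hP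
  have hopt : ¬ Imp E t l m U := by
    rintro ⟨σ', m', U', a1, a2, a3⟩
    have := Nat.le_findGreatest (P := P) (hb m' U') ⟨σ', m', U', ⟨a1, a2⟩, rfl⟩
    omega
  rcases hsm with rfl | ⟨a, rfl⟩
  · exact hopt (stepCR hC H1 hM hn h1)
  have hex : ∃ n, ∃ σ, St E t σ m {a, m a} ∧ len σ = n := ⟨_, σ1, h1, rfl⟩
  obtain ⟨σ, h, hlen⟩ := Nat.find_spec hex
  exact stepPR hC H1 hM hn h hopt fun σ' h' => hlen ▸ Nat.find_min' hex ⟨σ', h', rfl⟩

theorem Sep.mono {E E' : V → V → Prop} {P : Set V → Prop} (h : Sep E t l k P)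
    (hle : ∀ a b, E a b → E' a b) : Sep E' t l k P :=
  fun Y S y u h1 h2 h3 h4 h5 h6 => h Y S y u h1 h2 h3 h4
    (fun a ha ha' w hw => h5 a ha ha' w (hw.imp_left (hle _ _))) h6

/-- the standing hypotheses pass to every admissible larger relation -/
theorem Cx.mono {E E' : V → V → Prop} (h : Cx E t l k) (hle : ∀ a b, E a b → E' a b)
    (hs : ∀ a b, E' a b → E' b a) (hi : ∀ a, ¬ E' a a) (hL : ∀ i, ¬ E' (t i) (t (l i))) :
    Cx E' t l k := by
  refine ⟨⟨hs, hi, h.hl, h.tinj, hL, h.card, h.kpos⟩, h.hk.mono hle, fun u S hu hS => ?_,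
    fun Y hY => h.hc Y fun a ha w hw => hY a ha w (hle _ _ hw)⟩
  by_cases h0 : ∃ i, u = t i ∨ E u (t i)
  · exact h.hd u S h0 fun w hw => hS w (hw.imp_left (hle _ _))
  push Not at h0
  obtain ⟨i, hi⟩ := hu
  have h1 := h.hk_nt {u} (S.erase (t i)) u rfl (by rintro _ rfl j; exact (h0 j).1) (by
    rintro _ rfl w hw
    exact Or.inr (Finset.mem_erase.2 ⟨fun e => (h0 i).2 (e ▸ hw), hS w (Or.inl (hle _ _ hw))⟩))
  have h2 := Finset.card_erase_lt_of_mem (hS _ (Or.inl (hi.resolve_left (h0 i).1)))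
  omega

/-- a list that is a chain for the union of a chain of relations is a chain for one of them -/
theorem chain_union {c : Set (V → V → Prop)} (hc : IsChain (· ≤ ·) c) {E0 : V → V → Prop}
    (h0 : E0 ∈ c) (L : List V) (h : L.IsChain fun a b => ∃ E ∈ c, E a b) :
    ∃ E ∈ c, L.IsChain E := by
  induction L with
  | nil => exact ⟨E0, h0, List.IsChain.nil⟩
  | cons a L ih =>
    cases L with
    | nil => exact ⟨E0, h0, List.IsChain.singleton a⟩
    | cons b L =>
      obtain ⟨⟨E1, a1, a2⟩, a3⟩ := List.isChain_cons_cons.1 h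
      obtain ⟨E2, b1, b2⟩ := ih a3
      rcases hc.total a1 b1 with e | e
      · exact ⟨E2, b1, List.isChain_cons_cons.2 ⟨e _ _ a2, b2⟩⟩
      · exact ⟨E1, a1, List.isChain_cons_cons.2 ⟨a2, b2.imp fun x y => e x y⟩⟩

theorem chain_all {c : Set (V → V → Prop)} (hc : IsChain (· ≤ ·) c) {E0 : V → V → Prop}
    (h0 : E0 ∈ c) (f : ι → List V) (h : ∀ i, (f i).IsChain fun a b => ∃ E ∈ c, E a b)
    (I : Finset ι) : ∃ E ∈ c, ∀ i ∈ I, (f i).IsChain E := by
  induction I using Finset.induction_on with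
  | empty => exact ⟨E0, h0, by simp⟩
  | insert j I _ ih =>
    obtain ⟨E1, a1, a2⟩ := ih
    obtain ⟨E2, b1, b2⟩ := chain_union hc h0 _ (h j)
    rcases hc.total a1 b1 with e | e
    · exact ⟨E2, b1, fun i hi => (Finset.mem_insert.1 hi).elim (fun a => a ▸ b2)
        fun a => (a2 i a).imp fun x y => e x y⟩
    · exact ⟨E1, a1, fun i hi => (Finset.mem_insert.1 hi).elim
        (fun a => a ▸ b2.imp fun x y => e x y) (a2 i)⟩

/-- By Zorn's lemma a counterexample extends to an edge-maximal counterexample, since a solution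
uses finitely many edges. -/
theorem sol_of_ctxR {E : V → V → Prop} (hC : Cx E t l k) (H1 : Sep E t l k (OneE t l)) :
    Sol E t l := by
  by_contra hn
  obtain ⟨E', hle, hmax⟩ := zorn_le_nonempty₀
    {R : V → V → Prop | (∀ a b, R a b → R b a) ∧ (∀ a, ¬ R a a) ∧ (∀ i, ¬ R (t i) (t (l i))) ∧
      ¬ Sol R t l} (fun c hcs hc E0 h0 => by
      refine ⟨fun a b => ∃ R ∈ c, R a b, ⟨?_, ?_, ?_, ?_⟩, fun R hR a b e => ⟨R, hR, e⟩⟩
      · rintro a b ⟨R, hR, e⟩
        exact ⟨R, hR, (hcs hR).1 _ _ e⟩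
      · rintro a ⟨R, hR, e⟩
        exact (hcs hR).2.1 _ e
      · rintro i ⟨R, hR, e⟩
        exact (hcs hR).2.2.1 _ e
      · rintro ⟨σ, m, h, hcc⟩
        obtain ⟨R, hR, e⟩ := chain_all hc h0 (line σ m) (fun i => h.link i (by simp)) Finset.univ
        exact (hcs hR).2.2.2 ⟨σ, m, ⟨h.hm, h.head,
          fun i => chain_left (e i (Finset.mem_univ i)), h.nodup, h.disj, h.ucl,
          fun i _ => e i (Finset.mem_univ i)⟩, hcc⟩) E ⟨hC.symm, hC.irr, hC.noL, hn⟩
  obtain ⟨a1, a2, a3, a4⟩ := hmax.prop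
  have hC' := hC.mono (fun a b e => hle a b e) a1 a2 a3
  refine a4 (sol_of_maxR hC' (H1.mono fun a b e => hle a b e) fun x v h1 h2 h3 => ?_)
  by_contra h4
  have hA := hC'.add h1 h3
  exact h2 (hmax.le_of_ge (y := addE E' x v) ⟨hA.symm, hA.irr, hA.noL, h4⟩
    (fun a b e => Or.inl e) x v (Or.inr (Or.inl ⟨rfl, rfl⟩)))

end MainS

end

end Pool.Agent.P.MP_4197d5_co.Inf
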