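import Pool.Agent.P.MP_4197d5_co.Inf.Fin

/-! Arbitrary vertex sets: from graphs to the abstract setting. -/

namespace Pool.Agent.P.MP_4197d5_co.Inf

open Classical

set_option linter.unusedSectionVars false

section

variable {V ι : Type} [Fintype ι] {E : V → V → Prop} {t : ι → V} {l : ι → ι}

/-- consecutive members of a list are joined, so the last member is reachable from the first -/
theorem cyc_reach (H : SimpleGraph V) (x : V) (L : List V)
    (h : ∀ A B a b, x :: L = A ++ a :: b :: B → H.Adj a b) : ∀ y ∈ x :: L, H.Reachable x y := by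
  induction L generalizing x with
  | nil => intro y hy; rw [List.mem_singleton.1 hy]
  | cons z L ih =>
    intro y hy
    rcases List.mem_cons.1 hy with rfl | hy
    · rfl
    · refine (h [] L x z rfl).reachable.trans (ih z (fun A B a b e => h (x :: A) B a b ?_) y hy)
      rw [e]; rfl

/-- the graph formed by the prescribed edges and the lines -/
def cycG (G : SimpleGraph V) (t : ι → V) (l : ι → ι) (σ : ι → List V) (m : ι → ι) :
    SimpleGraph V where
  Adj x y := G.Adj x y ∧ (((∃ i, x = t i ∧ y = t (l i)) ∨ ∃ i A B, line σ m i = A ++ x :: y :: B) ∨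
    ((∃ i, y = t i ∧ x = t (l i)) ∨ ∃ i A B, line σ m i = A ++ y :: x :: B))
  symm := ⟨fun _ _ h => ⟨h.1.symm, h.2.symm⟩⟩
  loopless := ⟨fun _ h => h.1.ne rfl⟩

theorem cycG_adj {G : SimpleGraph V} {σ : ι → List V} {m : ι → ι} (h : St E t σ m ∅) (hl : Pr l)
    (hE : ∀ x y, E x y → G.Adj x y) (hL : ∀ i, G.Adj (t i) (t (l i))) (x y : V) :
    (cycG G t l σ m).Adj x y ↔
      (∃ i, x = t i ∧ y = t (l i)) ∨ ∃ i A B, line σ m i = A ++ x :: y :: B := by
  constructor
  · rintro ⟨-, h1 | ⟨i, rfl, rfl⟩ | ⟨i, A, B, e⟩⟩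
    · exact h1
    · exact Or.inl ⟨l i, rfl, by rw [hl.inv]⟩
    · refine Or.inr ⟨m i, B.reverse, A.reverse, ?_⟩
      rw [line_rev h.hm, e]; simp
  · intro h1
    refine ⟨?_, Or.inl h1⟩
    rcases h1 with ⟨i, rfl, rfl⟩ | ⟨i, A, B, e⟩
    · exact hL i
    · have := h.link i (by simp)
      rw [e] at this
      exact hE _ _ (chain_adj this)

theorem cycG_isCycles {G : SimpleGraph V} {σ : ι → List V} {m : ι → ι} (h : St E t σ m ∅)
    (hl : Pr l) (noL : ∀ i, ¬ E (t i) (t (l i))) (hE : ∀ x y, E x y → G.Adj x y)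
    (hL : ∀ i, G.Adj (t i) (t (l i))) : (cycG G t l σ m).IsCycles := by
  have tinj : ∀ i j, t i = t j → i = j := fun i j e => h.t_mem_iff.1 (e ▸ h.t_mem j)
  intro v hv
  rw [Set.ncard_eq_two]
  by_cases ht : ∃ j, v = t j
  · obtain ⟨j, rfl⟩ := ht
    obtain ⟨r, hr⟩ := h.line_cons j
    have hr0 : r ≠ [] := by
      rintro rfl
      have : t (m j) ∈ line σ m j := h.t_mem_line.2 (Or.inr rfl)
      rw [hr, List.mem_singleton] at this
      exact h.hm.fpf j (tinj _ _ this)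
    obtain ⟨s, r, rfl⟩ := List.exists_cons_of_ne_nil hr0
    refine ⟨t (l j), s, ?_, ?_⟩
    · rintro rfl
      have := h.link j (by simp)
      rw [hr] at this
      exact noL j (List.isChain_cons_cons.1 this).1
    · ext w
      rw [SimpleGraph.mem_neighborSet, cycG_adj h hl hE hL]
      constructor
      · rintro (⟨i, e, rfl⟩ | ⟨i, A, B, e⟩)
        · rw [tinj _ _ e]; simp
        · have hm : t j ∈ line σ m i := by rw [e]; simp
          have hn := h.line_nodup i
          rcases h.t_mem_line.1 hm with rfl | rfl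
          · rw [e] at hn hr
            have := (split_unique (A' := []) hn hr).2
            simp [(List.cons.inj this).1]
          · obtain ⟨r', hr'⟩ := h.line_concat i
            rw [e] at hn hr'
            exact absurd (split_unique hn hr').2 (by simp)
      · rintro (rfl | rfl)
        · exact Or.inl ⟨j, rfl, rfl⟩
        · exact Or.inr ⟨j, [], r, hr⟩
  · obtain ⟨b, hb⟩ := hv
    rw [SimpleGraph.mem_neighborSet, cycG_adj h hl hE hL] at hb
    rcases hb with ⟨i, e, -⟩ | ⟨i, A, B, e⟩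
    · exact absurd ⟨i, e⟩ ht
    have hA : A ≠ [] := by
      rintro rfl
      obtain ⟨r, hr⟩ := h.line_cons i
      rw [e] at hr
      exact ht ⟨i, (List.cons.inj hr).1⟩
    obtain ⟨A, a, rfl⟩ := (List.eq_nil_or_concat' A).resolve_left hA
    have hn := h.line_nodup i
    have e' : line σ m (m i) = (b :: B).reverse ++ v :: a :: A.reverse := by
      rw [line_rev h.hm, e]; simp
    refine ⟨a, b, ?_, ?_⟩
    · rintro rfl
      rw [e, List.nodup_append] at hn
      exact hn.2.2 a (by simp) a (by simp) rfl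
    · ext w
      rw [SimpleGraph.mem_neighborSet, cycG_adj h hl hE hL]
      constructor
      · rintro (⟨j, e1, -⟩ | ⟨j, A1, B1, e1⟩)
        · exact absurd ⟨j, e1⟩ ht
        · have hn1 := h.line_nodup j
          rcases h.line_disj (x := v) (i := i) (j := j) (by rw [e]; simp) (by rw [e1]; simp) with
            rfl | rfl
          · rw [e1] at hn1 e
            have := (split_unique hn1 e).2
            simp [(List.cons.inj this).1]
          · rw [e1] at hn1 e'
            have := (split_unique hn1 e').2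
            simp [(List.cons.inj this).1]
      · rintro (rfl | rfl)
        · exact Or.inr ⟨m i, _, _, e'⟩
        · exact Or.inr ⟨i, _, _, e⟩

/-- a graph of cycles with finitely many edges: the component of an edge is one cycle -/
theorem cyc_fin {H : SimpleGraph V} (hcy : H.IsCycles) (W : Finset V)
    (hW : ∀ x y, H.Adj x y → x ∈ W) {v w : V} (hvw : H.Adj v w) :
    ∃ p : H.Walk v v, p.IsCycle ∧ ∀ a b, H.Reachable v a → H.Adj a b → s(a, b) ∈ p.edges := by
  have hc' : (H.induce (↑W : Set V)).IsCycles := by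
    rintro x ⟨y, hy⟩
    rw [← Set.ncard_image_of_injective _ Subtype.val_injective, ← hcy (v := x.1) ⟨y.1, hy⟩]
    congr 1
    ext z
    exact ⟨by rintro ⟨u, hu, rfl⟩; exact hu, fun hz => ⟨⟨z, hW z x.1 hz.symm⟩, hz, rfl⟩⟩
  have hr : ∀ a b (ha : a ∈ W), H.Reachable a b →
      ∃ hb : b ∈ W, (H.induce (↑W : Set V)).Reachable ⟨a, ha⟩ ⟨b, hb⟩ := by
    rintro a b ha ⟨q⟩
    induction q with
    | nil => exact ⟨ha, SimpleGraph.Reachable.refl _⟩
    | @cons x y z e _ ih =>
      obtain ⟨hb, r⟩ := ih (hW y x e.symm)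
      exact ⟨hb, (SimpleGraph.Adj.reachable (G := H.induce (↑W : Set V))
        (u := ⟨x, ha⟩) (v := ⟨y, hW y x e.symm⟩) e).trans r⟩
  have h0 : (H.induce (↑W : Set V)).Adj ⟨v, hW v w hvw⟩ ⟨w, hW w v hvw.symm⟩ := hvw
  obtain ⟨p, hp, hv⟩ := hc'.exists_cycle_toSubgraph_verts_eq_connectedComponentSupp
    (c := (H.induce (↑W : Set V)).connectedComponentMk ⟨v, hW v w hvw⟩) (v := ⟨v, hW v w hvw⟩) rfl
    ⟨_, h0⟩
  refine ⟨p.map (SimpleGraph.Embedding.induce (↑W : Set V)).toHom,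
    hp.map Subtype.val_injective, fun a b hab e => ?_⟩
  obtain ⟨ha, r⟩ := hr v a (hW v w hvw) hab
  have h1 : s((⟨a, ha⟩ : (↑W : Set V)), ⟨b, hW b a e.symm⟩) ∈ p.edges := by
    rw [← SimpleGraph.Walk.adj_toSubgraph_iff_mem_edges]
    refine (hp.adj_toSubgraph_iff_of_isCycles hc' ?_ _).2 e
    rw [hv, SimpleGraph.ConnectedComponent.mem_supp_iff, SimpleGraph.ConnectedComponent.eq]
    exact r.symm
  have h2 := SimpleGraph.Walk.edges_map (SimpleGraph.Embedding.induce (G := H) (↑W : Set V)).toHom p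
  exact h2 ▸ List.mem_map.2 ⟨_, h1, rfl⟩

/-- Sketch. Let `H ≤ G` be the graph whose edges are the pairs `t i, t (l i)` and the consecutive
pairs of the lines. Every vertex on the system has exactly two `H`-neighbours (for an inner
vertex of a line its two neighbours on the line; for `t i` the vertex `t (l i)` and the second
vertex of `line σ m i`, which differ by `noL`), so `H.IsCycles`. All terminals are `H`-reachable
from each other (induction on `cc`). Use
`SimpleGraph.IsCycles.exists_cycle_toSubgraph_verts_eq_connectedComponentSupp` and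
`SimpleGraph.Walk.IsCycle.adj_toSubgraph_iff_of_isCycles`, then `Walk.mapLe` (or `transfer`). -/
theorem sol_cycle (G : SimpleGraph V) (hs : ∀ x y, E x y → E y x) (hl : Pr l)
    (noL : ∀ i, ¬ E (t i) (t (l i))) (hE : ∀ x y, E x y → G.Adj x y)
    (hL : ∀ i, G.Adj (t i) (t (l i))) [Nonempty ι] (h : Sol E t l) :
    ∃ (v : V) (p : G.Walk v v), p.IsCycle ∧ ∀ i, s(t i, t (l i)) ∈ p.edges := by
  have _ := hs
  obtain ⟨σ, m, h, hc⟩ := h
  have hcy := cycG_isCycles h hl noL hE hL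
  have hadj := cycG_adj h hl hE hL
  set H := cycG G t l σ m with hH
  have hle : H ≤ G := fun _ _ h => h.1
  have hLH : ∀ i, H.Adj (t i) (t (l i)) := fun i => (hadj _ _).2 (Or.inl ⟨i, rfl, rfl⟩)
  have hreach : ∀ x y, cc l m ∅ x y → H.Reachable (t x) (t y) := by
    intro x y hxy
    induction hxy with
    | rel x y hr =>
      rcases hr with rfl | ⟨-, rfl⟩
      · exact (hLH x).reachable
      · obtain ⟨r, hr⟩ := h.line_cons x
        refine cyc_reach H (t x) r (fun A B a b e => (hadj _ _).2 (Or.inr ⟨x, A, B, ?_⟩)) _ ?_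
        · rw [hr, e]
        · rw [← hr]; exact h.t_mem_line.2 (Or.inr rfl)
    | refl x => rfl
    | symm x y _ ih => exact ih.symm
    | trans x y z _ _ ih1 ih2 => exact ih1.trans ih2
  obtain ⟨i0⟩ := ‹Nonempty ι›
  obtain ⟨p, hp, hv⟩ := cyc_fin hcy (onF σ) (fun x y e => mem_onF.2 (by
    rcases (hadj _ _).1 e with ⟨i, rfl, -⟩ | ⟨i, A, B, e⟩
    · exact ⟨i, h.t_mem i⟩
    · exact On.of_line (m := m) (i := i) (by rw [e]; simp))) (hLH i0)
  refine ⟨t i0, p.mapLe hle, hp.mapLe hle, fun i => ?_⟩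
  rw [SimpleGraph.Walk.edges_mapLe_eq_edges]
  exact hv _ _ (hreach _ _ (hc i0 i)) (hLH i)

end

section

/-- the edge cut of a vertex set: the edges with exactly one end in `Y` -/
def cutOf {V : Type} (G : SimpleGraph V) (Y : Set V) : Set (Sym2 V) :=
  {e | e ∈ G.edgeSet ∧ ∃ x ∈ Y, ∃ y ∉ Y, e = s(x, y)}

theorem mem_cutOf {V : Type} {G : SimpleGraph V} {Y : Set V} {a b : V} :
    s(a, b) ∈ cutOf G Y ↔ G.Adj a b ∧ ¬ (a ∈ Y ↔ b ∈ Y) := by
  refine and_congr Iff.rfl ⟨?_, fun h => ?_⟩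
  · rintro ⟨x, hx, y, hy, e⟩
    rcases Sym2.eq_iff.1 e with ⟨rfl, rfl⟩ | ⟨rfl, rfl⟩ <;> tauto
  · by_cases ha : a ∈ Y
    · exact ⟨a, ha, b, by tauto, rfl⟩
    · exact ⟨b, by tauto, a, ha, Sym2.eq_swap⟩

/-- a walk crosses a cut an even number of times iff its ends are on the same side -/
theorem walk_par {V : Type} {G : SimpleGraph V} (Y : Set V) {u v : V} (p : G.Walk u v) :
    Even (p.edges.countP fun e => e ∈ cutOf G Y) ↔ (u ∈ Y ↔ v ∈ Y) := by
  induction p with
  | nil => simp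
  | @cons a b c h p ih =>
    rw [SimpleGraph.Walk.edges_cons, List.countP_cons]
    by_cases hc : s(a, b) ∈ cutOf G Y
    · rw [if_pos (by simpa using hc), Nat.even_add_one, ih]
      have := (mem_cutOf.1 hc).2
      tauto
    · rw [if_neg (by simpa using hc), add_zero, ih]
      have : a ∈ Y ↔ b ∈ Y := by
        by_contra h'
        exact hc (mem_cutOf.2 ⟨h, h'⟩)
      tauto

/-- a cut contained in a cycle is even -/
theorem cut_even {V : Type} {G : SimpleGraph V} (Y : Set V) {v : V} (p : G.Walk v v)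
    (hp : p.IsCycle) (h : ∀ e ∈ cutOf G Y, e ∈ p.edges) : Even (cutOf G Y).ncard := by
  have h1 := (walk_par Y p).2 Iff.rfl
  have h2 : cutOf G Y = ↑(p.edges.filter fun e => e ∈ cutOf G Y).toFinset := by
    ext e
    simp only [List.coe_toFinset, List.mem_filter, decide_eq_true_eq, Set.mem_ofPred_eq]
    exact ⟨fun a => ⟨h e a, a⟩, fun a => a.2⟩
  rw [h2, Set.ncard_coe_finset, List.toFinset_card_of_nodup (hp.edges_nodup.filter _),
    ← List.countP_eq_length_filter]
  exact h1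

theorem reach_closed {W : Type} {H : SimpleGraph W} (Y : Set W) {y v : W} (h : H.Reachable y v)
    (hy : y ∈ Y) (hc : ∀ x ∈ Y, ∀ w, H.Adj x w → w ∈ Y) : v ∈ Y := by
  obtain ⟨p⟩ := h
  induction p with
  | nil => exact hy
  | cons e _ ih => exact ih (hc _ hy _ e)

theorem rel_cycle {V : Type} (G : SimpleGraph V) (M : Finset (Sym2 V))
    (h1 : M.Nonempty) (h5 : (↑M : Set (Sym2 V)) ⊆ G.edgeSet)
    (h7 : ∀ e ∈ M, ∀ f ∈ M, e ≠ f → ∀ x ∈ e, x ∉ f)
    (h3 : ∀ S : Finset V, S.card < M.card → ∀ x y : ↥((↑S : Set V)ᶜ),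
      ¬ (G.induce ((↑S : Set V)ᶜ)).Reachable x y →
        ∃ e ∈ M, ∃ f ∈ M, e ≠ f ∧ ∀ z, z ∈ e ∨ z ∈ f →
          ∃ h : z ∈ (↑S : Set V)ᶜ, (G.induce ((↑S : Set V)ᶜ)).Reachable x ⟨z, h⟩)
    (h4 : ∀ e ∈ M, ∀ u ∈ e, ∀ v, v = u ∨ G.Adj v u → ((M.card + 1 : ℕ) : ℕ∞) ≤ (G.neighborSet v).encard)
    (h6 : ∀ Y : Set V, cutOf G Y ⊆ ↑M → Even (cutOf G Y).ncard) :
    ∃ (v : V) (p : G.Walk v v), p.IsCycle ∧ ∀ e ∈ M, e ∈ p.edges := by
  have huniq : ∀ e ∈ M, ∀ f ∈ M, ∀ x, x ∈ e → x ∈ f → e = f := by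
    intro e he f hf x hx hx'
    by_contra hne
    exact h7 e he f hf hne x hx hx'
  have hfin : ∀ v, v ∈ M.biUnion Sym2.toFinset ↔ ∃ e ∈ M, v ∈ e := fun v => by
    simp [Sym2.mem_toFinset]
  let _ : Fintype {v // ∃ e ∈ M, v ∈ e} := Fintype.subtype _ hfin
  have hex : ∀ i : {v // ∃ e ∈ M, v ∈ e}, ∃ j : {v // ∃ e ∈ M, v ∈ e}, s(i.1, j.1) ∈ M := by
    rintro ⟨v, e, he, hv⟩
    obtain ⟨w, rfl⟩ := Sym2.mem_iff_exists.1 hv
    exact ⟨⟨w, _, he, Sym2.mem_mk_right _ _⟩, he⟩
  choose l hl using hex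
  have hadj : ∀ i : {v // ∃ e ∈ M, v ∈ e}, G.Adj i.1 (l i).1 := fun i => h5 (hl i)
  have hlu : ∀ (i : {v // ∃ e ∈ M, v ∈ e}) (w : V), s(i.1, w) ∈ M → w = (l i).1 := by
    intro i w hw
    have := huniq _ hw _ (hl i) i.1 (Sym2.mem_mk_left _ _) (Sym2.mem_mk_left _ _)
    exact Sym2.congr_right.1 this
  have hPr : Pr l := by
    refine ⟨fun i => Subtype.ext (hlu (l i) i.1 ?_).symm, fun i e => (hadj i).ne ?_⟩
    · rw [Sym2.eq_swap]; exact hl i
    · rw [e]
  have hM : ∀ e ∈ M, ∃ i : {v // ∃ e ∈ M, v ∈ e}, e = s(i.1, (l i).1) := by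
    intro e he
    induction e using Sym2.ind with
    | _ a b =>
      refine ⟨⟨a, _, he, Sym2.mem_mk_left _ _⟩, ?_⟩
      rw [← hlu ⟨a, _, he, Sym2.mem_mk_left _ _⟩ b he]
  have hGA : ∀ v w, G.Adj v w →
      GA (fun x y => G.Adj x y ∧ s(x, y) ∉ M) (Subtype.val : {v // ∃ e ∈ M, v ∈ e} → V) l v w := by
    intro v w hvw
    by_cases hm : s(v, w) ∈ M
    · exact Or.inr ⟨⟨v, _, hm, Sym2.mem_mk_left _ _⟩, rfl,
        hlu ⟨v, _, hm, Sym2.mem_mk_left _ _⟩ w hm⟩
    · exact Or.inl ⟨hvw, hm⟩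
  have H1 : Sep (fun x y => G.Adj x y ∧ s(x, y) ∉ M) (Subtype.val : {v // ∃ e ∈ M, v ∈ e} → V) l
      M.card (OneE Subtype.val l) := by
    intro Y S y v hy hyS hv hvS hcl hP
    by_contra hlt
    have key : ∀ z : ↥((↑S : Set V)ᶜ), (G.induce ((↑S : Set V)ᶜ)).Reachable ⟨y, hyS⟩ z →
        z.1 ∈ Y := fun z hz =>
      reach_closed {x : ↥((↑S : Set V)ᶜ) | x.1 ∈ Y} hz hy fun x hx w hw =>
        (hcl x.1 hx x.2 w.1 (hGA _ _ hw)).resolve_right w.2
    obtain ⟨e, he, f, hf, hne, hz⟩ := h3 S (not_le.1 hlt) ⟨y, hyS⟩ ⟨v, hvS⟩ fun h => hv (key _ h)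
    obtain ⟨i, rfl⟩ := hM e he
    obtain ⟨j, rfl⟩ := hM f hf
    have hY : ∀ z, z ∈ s(i.1, (l i).1) ∨ z ∈ s(j.1, (l j).1) → z ∈ Y := fun z h => by
      obtain ⟨h', h''⟩ := hz z h
      exact key _ h''
    rcases hP i j (hY _ (Or.inl (Sym2.mem_mk_left _ _))) (hY _ (Or.inl (Sym2.mem_mk_right _ _)))
      (hY _ (Or.inr (Sym2.mem_mk_left _ _))) (hY _ (Or.inr (Sym2.mem_mk_right _ _))) with a | a
    · exact hne (by rw [a])
    · exact hne (by rw [a, hPr.inv, Sym2.eq_swap])
  have hC : Cx (fun x y => G.Adj x y ∧ s(x, y) ∉ M) (Subtype.val : {v // ∃ e ∈ M, v ∈ e} → V) l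
      M.card := by
    refine ⟨⟨?_, ?_, hPr, Subtype.val_injective, ?_, ?_, Finset.card_pos.2 h1⟩, ?_, ?_, ?_⟩
    · rintro x y ⟨h, h'⟩
      exact ⟨h.symm, by rwa [Sym2.eq_swap]⟩
    · exact fun x h => h.1.ne rfl
    · exact fun i h => h.2 (hl i)
    · rw [Fintype.card_of_subtype _ hfin, Finset.card_biUnion, Finset.sum_const_nat (m := 2), mul_comm]
      · intro e he
        exact Sym2.card_toFinset_of_not_isDiag e (G.not_isDiag_of_mem_edgeSet (h5 he))
      · intro e he f hf hne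
        refine Finset.disjoint_left.2 fun x hx hx' => ?_
        exact h7 e he f hf hne x (Sym2.mem_toFinset.1 hx) (Sym2.mem_toFinset.1 hx')
    · exact fun Y S y v a b c d e f => H1 Y S y v a b c d e fun i _ p q => absurd q (f i p)
    · rintro v S ⟨i, hi⟩ hS
      have a1 := (h4 _ (hl i) i.1 (Sym2.mem_mk_left _ _) v (hi.imp_right And.left)).trans
        (Set.encard_le_encard (t := (↑S : Set V)) fun w hw => hS w (hGA _ _ hw))
      rw [Set.encard_coe_eq_coe_finsetCard] at a1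
      exact_mod_cast a1
    · intro Y hcl
      have hsub : cutOf G Y ⊆ ↑M := by
        rintro e ⟨he, x, hx, y, hy, rfl⟩
        by_contra hm
        exact hy (hcl x hx y ⟨he, hm⟩)
      have a1 := h6 Y hsub
      have a2 := even_card hPr (Finset.univ.filter fun i => i.1 ∈ Y ∧ (l i).1 ∈ Y) fun i hi => by
        rw [Finset.mem_filter] at hi ⊢
        exact ⟨Finset.mem_univ _, hi.2.2, by rw [hPr.inv]; exact hi.2.1⟩
      have a3 : cutOf G Y = ↑((Finset.univ.filter fun i => i.1 ∈ Y ∧ ¬ (l i).1 ∈ Y).image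
          fun i => s(i.1, (l i).1)) := by
        ext e
        simp only [Finset.coe_image, Finset.coe_filter, Finset.mem_univ, true_and, Set.mem_image,
          Set.mem_ofPred_eq]
        constructor
        · intro he
          have hm := hsub he
          obtain ⟨-, x, hx, y, hy, rfl⟩ := he
          have := hlu ⟨x, _, hm, Sym2.mem_mk_left _ _⟩ y hm
          exact ⟨⟨x, _, hm, Sym2.mem_mk_left _ _⟩, ⟨hx, this ▸ hy⟩, by rw [← this]⟩
        · rintro ⟨i, ⟨p, q⟩, rfl⟩
          exact ⟨hadj i, _, p, _, q, rfl⟩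
      rw [a3, Set.ncard_coe_finset, Finset.card_image_of_injOn (fun i hi j hj e => by
        simp only [Finset.coe_filter, Finset.mem_univ, true_and, Set.mem_ofPred_eq] at hi hj
        rcases Sym2.eq_iff.1 e with a | a
        · exact Subtype.ext a.1
        · exact absurd (a.1 ▸ hi.1) hj.2)] at a1
      have a4 := Finset.card_filter_add_card_filter_not
        (s := Finset.univ.filter fun i : {v // ∃ e ∈ M, v ∈ e} => i.1 ∈ Y) fun i => (l i).1 ∈ Y
      rw [Finset.filter_filter, Finset.filter_filter] at a4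
      have a5 := a2.add a1
      rw [a4] at a5
      convert a5
  obtain ⟨e0, he0⟩ := h1
  obtain ⟨i0, -⟩ := hM e0 he0
  have : Nonempty {v // ∃ e ∈ M, v ∈ e} := ⟨i0⟩
  obtain ⟨v, p, hp, hq⟩ := sol_cycle G hC.symm hPr hC.noL (fun _ _ h => h.1) hadj
    (sol_of_ctxR hC H1)
  refine ⟨v, p, hp, fun e he => ?_⟩
  obtain ⟨i, rfl⟩ := hM e he
  exact hq i

end

end Pool.Agent.P.MP_4197d5_co.Inf
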