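import Pool.Agent.P.MP_4197d5_co.Inf.Base

/-! Arbitrary vertex sets: tight systems with one loose pair. -/

namespace Pool.Agent.P.MP_4197d5_co.Inf

open Classical

set_option linter.unusedSectionVars false

section

variable {V ι : Type} [Fintype ι] {E : V → V → Prop} {t : ι → V} {l : ι → ι} {k : ℕ}
  {σ : ι → List V} {m : ι → ι} {e : Bool → ι} {X : Bool → Set V} {F : Bool → Finset V} {ty : ι → Option Bool}
  {pre mid : ι → List V} {gate : ι → V}

namespace TS

theorem not_mem (T : TS E t k σ m e X F ty pre mid gate) {u : ι} :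
    u ∉ ({e false, e true} : Finset ι) ↔ Rl e u := by
  simp [Rl]

theorem rl_m (T : TS E t k σ m e X F ty pre mid gate) {u : ι} (h : Rl e u) : Rl e (m u) :=
  T.not_mem.1 (T.st.not_mem (T.not_mem.2 h))

theorem pair_eq (T : TS E t k σ m e X F ty pre mid gate) (c : Bool) :
    ({e false, e true} : Finset ι) = {e c, m (e c)} := by
  rw [T.me]; cases c
  · rfl
  · exact Finset.pair_comm _ _

theorem chain (T : TS E t k σ m e X F ty pre mid gate) {u : ι} (h : Rl e u) :
    (line σ m u).IsChain E := T.st.link u (T.not_mem.2 h)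

theorem rl_of (T : TS E t k σ m e X F ty pre mid gate) {c : Bool} {u : ι} (h1 : u ≠ e c)
    (h2 : u ≠ e (!c)) : Rl e u := fun c' => by
  cases c <;> cases c' <;> assumption

theorem t_not_line (T : TS E t k σ m e X F ty pre mid gate) {u : ι} (hr : Rl e u) (c : Bool) :
    t (e c) ∉ line σ m u := fun h => by
  rcases T.st.t_mem_line.1 h with h | h
  · exact hr c h.symm
  · exact T.rl_m hr c h.symm

theorem XF (T : TS E t k σ m e X F ty pre mid gate) (hs : ∀ x y, E x y → E y x) {c c' : Bool}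
    {x : V} (hx : x ∈ X c) : x ∉ F c' ∧ x ∉ X (!c) := by
  have key : ¬ E (t (e (!c))) x := fun h => by
    rcases (((T.gad c).adjX x hx _).1 (hs _ _ h)).2 with h1 | h1 | h1
    · exact (T.gad c).nt _ h1 _ rfl
    · exact T.eF (!c) (by simpa using h1)
    · have h2 := T.st.t_mem (e c)
      rw [← h1, T.st.t_mem_iff, ← T.me] at h2
      exact T.st.hm.fpf _ h2
  refine ⟨fun h => ?_, fun h => key (((T.gad (!c)).adja x).2 (Or.inl h))⟩
  by_cases hc : c' = c
  · exact (T.gad c).XF x hx (hc ▸ h)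
  · have : c' = !c := by cases c <;> cases c' <;> simp_all
    exact key (((T.gad (!c)).adja x).2 (Or.inr (this ▸ h)))

/-- where the members of `X c` sit -/
theorem X_on (T : TS E t k σ m e X F ty pre mid gate) (hs : ∀ x y, E x y → E y x) {c : Bool}
    {x : V} (hx : x ∈ X c) {u : ι} (hu : x ∈ line σ m u) :
    Rl e u ∧ ty u = some c ∧ x ∈ mid u := by
  have hr : Rl e u := fun c' h => by
    subst h
    rw [line, T.me, T.triv, T.triv] at hu
    simp only [List.reverse_singleton, List.mem_append, List.mem_singleton] at hu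
    rcases hu with h | h <;> exact (T.gad c).nt x hx _ h
  have hr' := T.rl_m hr
  refine ⟨hr, ?_⟩
  rcases h : ty u with _ | c'
  · obtain ⟨h1, -, h3⟩ := T.sgl u hr h
    rw [h1] at hu
    simp only [List.mem_append, List.mem_cons, List.mem_reverse] at hu
    rcases hu with hu | hu | hu
    · exact absurd hx (T.hpre u hr x hu c).2
    · exact absurd (hu ▸ h3 c) (T.XF hs (c' := c) hx).1
    · exact absurd hx (T.hpre _ hr' x hu c).2
  · obtain ⟨h1, h2, -, h4, -⟩ := T.dbl u c' hr h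
    obtain ⟨-, h5, -⟩ := T.dbl (m u) c' hr' (by rw [T.tym, h])
    rw [h1] at hu
    simp only [List.mem_append, List.mem_cons, List.mem_reverse] at hu
    rcases hu with hu | hu | hu | hu | hu
    · exact absurd hx (T.hpre u hr x hu c).2
    · exact absurd (hu ▸ h2) (T.XF hs (c' := c') hx).1
    · refine ⟨?_, hu⟩
      by_contra hc
      have : c' = !c := by cases c <;> cases c' <;> simp_all
      exact (T.XF hs (c' := c) hx).2 (this ▸ h4 x hu)
    · exact absurd (hu ▸ h5) (T.XF hs (c' := c') hx).1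
    · exact absurd hx (T.hpre _ hr' x hu c).2

theorem F_on_aux (T : TS E t k σ m e X F ty pre mid gate) (hs : ∀ x y, E x y → E y x) {c : Bool}
    {f : V} (hf : f ∈ F c) {u : ι} (hr : Rl e u) (hu : f ∈ line σ m u) :
    ty u ≠ some (!c) ∧ (f = gate u ∨ f = gate (m u)) := by
  have hr' := T.rl_m hr
  rcases h : ty u with _ | c'
  · obtain ⟨h1, -, h3⟩ := T.sgl u hr h
    rw [h1] at hu
    simp only [List.mem_append, List.mem_cons, List.mem_reverse] at hu
    rcases hu with hu | hu | hu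
    · exact absurd hf (T.hpre u hr f hu c).1
    · exact ⟨by simp, Or.inl hu⟩
    · exact absurd hf (T.hpre _ hr' f hu c).1
  · obtain ⟨h1, -, h2, h4, -⟩ := T.dbl u c' hr h
    obtain ⟨-, -, h5, -⟩ := T.dbl (m u) c' hr' (by rw [T.tym, h])
    rw [h1] at hu
    simp only [List.mem_append, List.mem_cons, List.mem_reverse] at hu
    have key : f ∉ F (!c') → some c' ≠ some (!c) := fun a b => a (by
      rw [Option.some.inj b, Bool.not_not]; exact hf)
    rcases hu with hu | hu | hu | hu | hu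
    · exact absurd hf (T.hpre u hr f hu c).1
    · exact ⟨key (hu ▸ h2), Or.inl hu⟩
    · exact absurd hf (T.XF hs (c' := c) (h4 f hu)).1
    · exact ⟨key (hu ▸ h5), Or.inr hu⟩
    · exact absurd hf (T.hpre _ hr' f hu c).1

/-- where the members of `F c` sit -/
theorem F_on (T : TS E t k σ m e X F ty pre mid gate) (hs : ∀ x y, E x y → E y x) {c : Bool}
    {f : V} (hf : f ∈ F c) : ∃ u, Rl e u ∧ ty u ≠ some (!c) ∧ f = gate u := by
  obtain ⟨u, hr, hu⟩ := T.Fon c f hf
  obtain ⟨h1, h2 | h2⟩ := T.F_on_aux hs hf hr hu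
  · exact ⟨u, hr, h1, h2⟩
  · exact ⟨m u, T.rl_m hr, by rw [T.tym]; exact h1, h2⟩

theorem F_on' (T : TS E t k σ m e X F ty pre mid gate) (hs : ∀ x y, E x y → E y x) {c : Bool}
    {f : V} (hf : f ∈ F c) {u : ι} (hr : Rl e u) (hu : f ∈ line σ m u) :
    ty u ≠ some (!c) ∧ (f = gate u ∨ f = gate (m u)) := by
  exact T.F_on_aux hs hf hr hu

theorem gate_mem (T : TS E t k σ m e X F ty pre mid gate) {c : Bool} {u : ι} (hr : Rl e u)
    (h : ty u ≠ some (!c)) : gate u ∈ F c := by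
  rcases h1 : ty u with _ | c'
  · exact (T.sgl u hr h1).2.2 c
  · have : c' = c := by cases c <;> cases c' <;> simp_all
    exact this ▸ (T.dbl u c' hr h1).2.1

theorem gate_line (T : TS E t k σ m e X F ty pre mid gate) {u : ι} (hr : Rl e u) :
    ∃ R, line σ m u = pre u ++ gate u :: R := by
  rcases h1 : ty u with _ | c'
  · exact ⟨_, (T.sgl u hr h1).1⟩
  · exact ⟨_, (T.dbl u c' hr h1).1⟩

/-- the line is the zone, a middle part inside the gadgets, and the far gate with its stub -/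
theorem zone_line (T : TS E t k σ m e X F ty pre mid gate) {u : ι} (hr : Rl e u) :
    ∃ M, line σ m u = zone ty pre gate u ++ M ++ gate (m u) :: (pre (m u)).reverse ∧
      ∀ x ∈ M, ∃ c, ty u = some c ∧ x ∈ X c ∧ x ∈ mid u := by
  rcases h1 : ty u with _ | c'
  · obtain ⟨h2, h3, -⟩ := T.sgl u hr h1
    exact ⟨[], by simp [zone, h1, h2, h3], by simp⟩
  · obtain ⟨h2, -, -, h4, -⟩ := T.dbl u c' hr h1
    exact ⟨mid u, by simp [zone, h1, h2], fun x hx => ⟨c', rfl, h4 x hx, hx⟩⟩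

theorem zone_sub (T : TS E t k σ m e X F ty pre mid gate) {u : ι} (hr : Rl e u) {v : V}
    (hv : v ∈ zone ty pre gate u) : v ∈ line σ m u := by
  obtain ⟨M, h, -⟩ := T.zone_line hr
  rw [h]; simp [hv]

/-- the zone of an index compatible with side `c` avoids the gadget of the other side -/
theorem zone_avoid (T : TS E t k σ m e X F ty pre mid gate) (hs : ∀ x y, E x y → E y x)
    {c : Bool} {u : ι} (hr : Rl e u) (h : ty u ≠ some (!c)) {v : V}
    (hv : v ∈ zone ty pre gate u) :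
    v ∉ F (!c) ∧ (∀ c', v ∉ X c') ∧ (∀ c', v ≠ t (e c')) ∧ v ∈ line σ m u := by
  have hl : v ∈ line σ m u := T.zone_sub hr hv
  refine ⟨?_, ?_, fun c' h' => T.t_not_line hr c' (h' ▸ hl), hl⟩
  · rcases h1 : ty u with _ | c'
    · exact (T.hpre u hr v (by simpa [zone, h1] using hv) _).1
    · have hc : c' = c := by cases c <;> cases c' <;> simp_all
      simp only [zone, h1, reduceCtorEq, if_false, List.mem_append, List.mem_singleton] at hv
      rcases hv with hv | hv
      · exact (T.hpre u hr v hv _).1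
      · exact hv ▸ hc ▸ (T.dbl u c' hr h1).2.2.1
  · intro c' hx
    have : v ∈ pre u ∨ v = gate u := by
      unfold zone at hv
      split_ifs at hv
      · exact Or.inl hv
      · simpa using hv
    rcases this with hv | hv
    · exact (T.hpre u hr v hv c').2 hx
    · exact (T.XF hs (c' := c) hx).1 (hv ▸ T.gate_mem hr h)

theorem alive (T : TS E t k σ m e X F ty pre mid gate) {u : ι} (hr : Rl e u)
    (h : zone ty pre gate u = []) : zone ty pre gate (m u) ≠ [] := by
  intro h'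
  rcases h1 : ty u with _ | c'
  · have h2 := (T.sgl u hr h1).1
    simp only [zone, T.tym, h1, if_true] at h h'
    rw [h, h'] at h2
    have h3 := congrArg List.length h2
    have h4 := List.length_pos_iff.2 (T.st.ne_nil u)
    have h5 := List.length_pos_iff.2 (T.st.ne_nil (m u))
    simp [line] at h3
    omega
  · simp [zone, h1] at h

/-- join the two loose terminals to two loose stubs ending at gates -/
theorem close (T : TS E t k σ m e X F ty pre mid gate) (hs : ∀ x y, E x y → E y x)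
    {σ1 : ι → List V} {m1 : ι → ι} {U1 : Finset ι} (h : St E t σ1 m1 U1) {c : Bool} {a b : ι}
    {g1 g2 : V} {R1 R2 : List V} (h1 : ∀ c', σ1 (e c') = [t (e c')]) (h2 : m1 (e c) = e (!c))
    (h3 : m1 a = b) (h4 : Rl e a) (h5 : σ1 a = (g1 :: R1).reverse)
    (h6 : σ1 b = (g2 :: R2).reverse) (h7 : g1 ∈ F c) (h8 : g2 ∈ F (!c)) :
    ∃ σ2 m2 U2, St E t σ2 m2 U2 ∧ (∀ i, i ∈ U2 ↔ i ∈ U1 ∧ Out m1 (e c) a i) ∧
      Xch m1 m2 (e c) a ∧ line σ2 m2 (e c) = t (e c) :: g1 :: R1 ∧
      line σ2 m2 (e (!c)) = t (e (!c)) :: g2 :: R2 ∧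
      ∀ i, Out m1 (e c) a i → σ2 i = σ1 i ∧ line σ2 m2 i = line σ1 m1 i := by
  obtain ⟨m2, hx⟩ := xch_exists h.hm (h4 c).symm (h2 ▸ (h4 (!c)).symm)
  have c1 : (g1 :: R1).IsChain E := (chain_rev_iff hs).1 (h5 ▸ h.chain a)
  have c2 : (g2 :: R2).IsChain E := (chain_rev_iff hs).1 (h6 ▸ h.chain b)
  obtain ⟨σ2, U2, r1, r2, r3, r4, r5⟩ := h.exch hs hx (P1 := [t (e c)]) (M1 := [])
    (Q1 := [t (e (!c))]) (P2 := (g1 :: R1).reverse) (M2 := []) (Q2 := g2 :: R2) (c1 := [])
    (c2 := []) (by rw [line, h2, h1, h1]; simp) (by rw [line, h3, h5, h6]; simp) (by simp)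
    (by simp) (by simp) (by simp) (by simp) (by simp)
    (by
      rw [List.reverse_reverse]
      exact List.isChain_cons_cons.2 ⟨((T.gad c).adja _).2 (Or.inr h7), c1⟩)
    (List.isChain_cons_cons.2 ⟨((T.gad (!c)).adja _).2 (Or.inr h8), c2⟩)
  refine ⟨σ2, m2, U2, r1, r2, hx, by rw [r3]; simp, by rw [← h2, r4, h2]; simp, r5⟩

theorem tail_noX (T : TS E t k σ m e X F ty pre mid gate) (hs : ∀ x y, E x y → E y x) {u : ι}
    (hr : Rl e u) {c : Bool} {x : V} (hx : x ∈ X c) (a : ι) :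
    x ∉ t a :: gate u :: (pre u).reverse := by
  simp only [List.mem_cons, List.mem_reverse, not_or]
  refine ⟨(T.gad c).nt x hx a, fun h => ?_, fun h => (T.hpre u hr x h c).2 hx⟩
  have : ∃ c', ty u ≠ some (!c') := by
    rcases ty u with _ | c'
    · exact ⟨true, by simp⟩
    · exact ⟨c', by simp⟩
  obtain ⟨c', hc⟩ := this
  exact (T.XF hs (c' := c') hx).1 (h ▸ T.gate_mem hr hc)

theorem tail_on (T : TS E t k σ m e X F ty pre mid gate) {u w : ι} (hu : Rl e u) (hw : Rl e w)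
    (n1 : w ≠ u) (n2 : w ≠ m u) {c : Bool} {v : V}
    (hv : v ∈ t (e c) :: gate (m u) :: (pre (m u)).reverse) :
    On σ v ∧ v ∉ zone ty pre gate u ∧ v ∉ zone ty pre gate w := by
  rcases List.mem_cons.1 hv with rfl | hv
  · exact ⟨T.st.t_on _, fun h => T.t_not_line hu c (T.zone_sub hu h),
      fun h => T.t_not_line hw c (T.zone_sub hw h)⟩
  obtain ⟨M, e1, -⟩ := T.zone_line hu
  have hl : v ∈ line σ m u := by rw [e1]; exact List.mem_append_right _ hv
  refine ⟨On.of_line hl, fun h => ?_, fun h => ?_⟩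
  · have hn := T.st.line_nodup u
    rw [e1, List.nodup_append] at hn
    exact hn.2.2 v (List.mem_append_left _ h) v hv rfl
  · rcases T.st.line_disj hl (T.zone_sub hw h) with h | h
    · exact n1 h
    · exact n2 h

/-- a link between the two zones of one line closes the loose pair through the common gate -/
theorem vl_same (T : TS E t k σ m e X F ty pre mid gate) (hs : ∀ x y, E x y → E y x)
    {c : Bool} {i j : ι} {Pi q Pj : List V} (L : VL E σ e X ty pre gate c i j Pi q Pj)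
    (hj : j = m i) : ∃ σ', St E t σ' m ∅ := by
  subst hj
  have hty : ty i = none := by
    have h1 := L.ti
    have h2 := L.tj
    rw [T.tym] at h2
    rcases h : ty i with _ | c'
    · rfl
    · cases c <;> cases c' <;> simp_all
  obtain ⟨h1, -, h3⟩ := T.sgl i L.ri hty
  obtain ⟨R1, e1⟩ := L.pi
  obtain ⟨R2, e2⟩ := L.pj
  simp only [zone, T.tym, hty, if_true] at e1 e2
  obtain ⟨σ1, U1, s1, s2, s3, s4⟩ := T.st.join hs (u := i) (P := Pi)
    (M := R1 ++ gate i :: R2.reverse) (Q := Pj.reverse) (c := q)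
    (by rw [h1, ← e1, ← e2]; simp) L.ni (by simpa using L.nj) L.nd
    (fun x hx => Or.inl (L.free x hx).1) L.ch
  have hg : gate i ∈ line σ m i := by rw [h1]; simp
  have hfree : ¬ On σ1 (gate i) := by
    have key : gate i ∉ line σ1 m i := by
      rw [s3]
      simp only [List.mem_append, List.mem_reverse, not_or]
      exact ⟨⟨fun h => (T.hpre i L.ri _ (by rw [← e1]; simp [h]) c).1 (h3 c),
        fun h => (L.free _ h).1 (On.of_line hg)⟩,
        fun h => (T.hpre _ L.rj _ (by rw [← e2]; simp [h]) c).1 (h3 c)⟩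
    rintro ⟨u, hu⟩
    by_cases a : u = i
    · exact key (mem_line.2 (Or.inl (a ▸ hu)))
    by_cases b : u = m i
    · exact key (mem_line.2 (Or.inr (b ▸ hu)))
    rw [s4 u a b] at hu
    rcases T.st.stub_line hu hg with h | h
    · exact a h
    · exact b h
  have t1 : ∀ c', σ1 (e c') = [t (e c')] := fun c' => by
    rw [s4 _ (L.ri c').symm (L.rj c').symm, T.triv]
  obtain ⟨σ2, U2, r1, r2, -⟩ := s1.join hs (u := e false) (P := [t (e false)]) (M := [])
    (Q := [t (e true)]) (c := [gate i]) (by rw [line, T.me, t1, t1]; simp) (by simp) (by simp)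
    (by simp) (by simpa using hfree)
    (by simpa using ⟨((T.gad false).adja _).2 (Or.inr (h3 _)),
      hs _ _ (((T.gad true).adja _).2 (Or.inr (h3 _)))⟩)
  have : U2 = ∅ := by
    ext u
    simp only [r2, s2, T.me, Finset.mem_insert, Finset.mem_singleton, Finset.notMem_empty,
      Bool.not_false]
    tauto
  exact ⟨σ2, this ▸ r1⟩

/-- two applications of `St.exchH` / `St.exch` -/
theorem f1_exists (T : TS E t k σ m e X F ty pre mid gate) (hs : ∀ x y, E x y → E y x)
    {c : Bool} {i j : ι} {Pi q Pj : List V} (L : VL E σ e X ty pre gate c i j Pi q Pj)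
    (hj : j ≠ m i) : ∃ σ1 m1, F1 E t σ m e pre gate c i j Pi q Pj σ1 m1 := by
  obtain ⟨M1, e1, -⟩ := T.zone_line L.ri
  obtain ⟨M2, e2, -⟩ := T.zone_line L.rj
  obtain ⟨R1, p1⟩ := L.pi
  obtain ⟨R2, p2⟩ := L.pj
  obtain ⟨m', hx⟩ := xch_exists T.st.hm L.ne hj.symm
  have c1 := T.chain L.ri
  have c2 := T.chain L.rj
  rw [e1] at c1
  rw [e2] at c2
  obtain ⟨σ1, U1, s1, s2, s3, s4, s5, s6⟩ := T.st.exchH hs hx (P1 := Pi) (M1 := R1 ++ M1)
    (Q1 := gate (m i) :: (pre (m i)).reverse) (P2 := Pj) (M2 := R2 ++ M2)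
    (Q2 := gate (m j) :: (pre (m j)).reverse) (c1 := q) (by rw [e1, ← p1]; simp)
    (by rw [e2, ← p2]; simp) L.ni (by simp) L.nj (by simp) L.nd
    (fun x hx => Or.inl (L.free x hx).1) L.ch (chain_right c1) (chain_right c2)
  have ho : ∀ c', Out m i j (e c') := fun c' =>
    ⟨(L.ri c').symm, (T.rl_m L.ri c').symm, (L.rj c').symm, (T.rl_m L.rj c').symm⟩
  obtain ⟨σ2, m2, U2, r1, r2, r3, r4, r5, r6⟩ := T.close hs s1 (c := c) (a := m i) (b := m j)
    (fun c' => by rw [(s6 _ (ho c')).1, T.triv]) (by rw [hx.oth _ (ho c), T.me]) hx.hma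
    (T.rl_m L.ri) s4 s5 (T.gate_mem (T.rl_m L.ri) (by rw [T.tym]; exact L.ti))
    (T.gate_mem (T.rl_m L.rj) (by rw [T.tym, Bool.not_not]; exact L.tj))
  have hme : m' (e c) = e (!c) := by rw [hx.oth _ (ho c), T.me]
  have hO : ∀ u, Rl e u → u ≠ m i → u ≠ m j → Out m' (e c) (m i) u := fun u a b d =>
    ⟨a c, hme ▸ a _, b, hx.hma ▸ d⟩
  have hi : Out m' (e c) (m i) i := hO i L.ri (T.st.hm.fpf i).symm
    (fun h => hj (by rw [h, T.st.hm.inv]))
  have : U2 = ∅ := by
    ext u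
    simp only [r2, s2, Out, hme, hx.hma, Finset.mem_insert, Finset.mem_singleton,
      Finset.notMem_empty, iff_false]
    cases c <;> simp only [Bool.not_false, Bool.not_true] <;> tauto
  refine ⟨σ2, m2, this ▸ r1, hj, by rw [r3.oth i hi, hx.ha], r3.ha, by rw [← hme, r3.hma, hx.hma],
    fun u a b => ?_, by rw [(r6 i hi).2, s3], r4, r5⟩
  have hu := hO u a b.2.1 b.2.2.2
  exact ⟨by rw [r3.oth u hu, hx.oth u b], by rw [(r6 u hu).2, (s6 u b).2]⟩

theorem sw_exists (T : TS E t k σ m e X F ty pre mid gate) (hs : ∀ x y, E x y → E y x)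
    (hl : Pr l) {c : Bool} {z : ι} (h1 : Rl e z) (h2 : Rl e (l z)) (h3 : l z ≠ m z)
    (h4 : ty z ≠ some (!c)) (h5 : ty (l z) ≠ some c) (h6 : zone ty pre gate z ≠ [])
    (h7 : zone ty pre gate (l z) ≠ []) : ∃ σ2 m2, SW E t l σ m e pre gate c z σ2 m2 := by
  obtain ⟨M1, e1, -⟩ := T.zone_line h1
  obtain ⟨M2, e2, -⟩ := T.zone_line h2
  obtain ⟨R1, p1⟩ := T.st.head_of_line (by rw [e1, List.append_assoc]) h6
  obtain ⟨R2, p2⟩ := T.st.head_of_line (by rw [e2, List.append_assoc]) h7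
  have hm := T.st.hm
  have n1 : z ≠ l z := (hl.fpf z).symm
  have n2 : m (l z) ≠ z := fun h => h3 (hm.eq_iff.1 h)
  have n3 : m (l z) ≠ m z := fun h => n1 (hm.inj h).symm
  obtain ⟨m', hx⟩ := xch_exists hm n1 h3.symm
  have c1 := T.chain h1
  have c2 := T.chain h2
  rw [e1] at c1
  rw [e2] at c2
  obtain ⟨σ0, U0, q1, q2, q3, q4, q5, -⟩ := T.st.cut hs (u := z) (P := [t z]) (M := R1 ++ M1)
    (Q := gate (m z) :: (pre (m z)).reverse) (by rw [e1, p1]; simp) (by simp) (by simp) (by simp)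
    (chain_right c1)
  obtain ⟨σ1, U1, s1, s2, s3, s4, s5, -⟩ := q1.cut hs (u := l z) (P := [t (l z)]) (M := R2 ++ M2)
    (Q := gate (m (l z)) :: (pre (m (l z))).reverse)
    (by rw [line_congr (σ := σ) (m := m) rfl (q5 _ n1.symm h3) (q5 _ n2 n3), e2, p2]; simp)
    (by simp) (by simp) (by simp) (chain_right c2)
  have s6 : ∀ u, Out m z (l z) u → σ1 u = σ u := fun u a => by
    rw [s5 u a.2.2.1 a.2.2.2, q5 u a.1 a.2.1]
  have s1' : St E t σ1 m' U1 := s1.repair hx.inv fun u hu => hx.oth u (by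
    simp only [s2, q2, not_or] at hu
    exact ⟨hu.1.2.1, hu.1.2.2, hu.2.1, hu.2.2⟩)
  have ho : ∀ c', Out m z (l z) (e c') := fun c' =>
    ⟨(h1 c').symm, (T.rl_m h1 c').symm, (h2 c').symm, (T.rl_m h2 c').symm⟩
  obtain ⟨σ2, m2, U2, r1, r2, r3, r4, r5, r6⟩ := T.close hs s1' (c := c) (a := m z)
    (b := m (l z)) (fun c' => by rw [s6 _ (ho c'), T.triv]) (by rw [hx.oth _ (ho c), T.me]) hx.hma
    (T.rl_m h1) (by rw [s5 _ h3.symm n3.symm, q4]) s4
    (T.gate_mem (T.rl_m h1) (by rw [T.tym]; exact h4))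
    (T.gate_mem (T.rl_m h2) (by rw [T.tym, Bool.not_not]; exact h5))
  have hme : m' (e c) = e (!c) := by rw [hx.oth _ (ho c), T.me]
  have hO : ∀ u, Rl e u → u ≠ m z → u ≠ m (l z) → Out m' (e c) (m z) u := fun u a b d =>
    ⟨a c, hme ▸ a _, b, hx.hma ▸ d⟩
  have hz : Out m' (e c) (m z) z := hO z h1 (hm.fpf z).symm n2.symm
  have hlz : Out m' (e c) (m z) (l z) := hO _ h2 h3 (hm.fpf _).symm
  have : U2 = {z, l z} := by
    ext u
    rw [r2]
    constructor
    · simp only [s2, q2, Out, hme, hx.hma, Finset.mem_insert, Finset.mem_singleton]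
      cases c <;> simp only [Bool.not_false, Bool.not_true] <;> tauto
    · simp only [s2, q2, Finset.mem_insert, Finset.mem_singleton]
      rintro (rfl | rfl)
      · exact ⟨by simp, hz⟩
      · exact ⟨by simp, hlz⟩
  refine ⟨σ2, m2, this ▸ r1, h3, by rw [r3.oth z hz, hx.ha], r3.ha,
    by rw [← hme, r3.hma, hx.hma], fun u a b => ?_, by rw [(r6 z hz).1, s5 _ n1 n2.symm, q3],
    by rw [(r6 _ hlz).1, s3], r4, r5⟩
  have hu := hO u a b.2.1 b.2.2.2
  exact ⟨by rw [r3.oth u hu, hx.oth u b], by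
    rw [(r6 u hu).2]; exact line_congr (hx.oth u b) (s6 u b) (s6 _ (b.par hm))⟩

/-- members of the gadgets used by the closed system sit on untouched lines -/
theorem f1_X (T : TS E t k σ m e X F ty pre mid gate) (hs : ∀ x y, E x y → E y x)
    {c : Bool} {i j : ι} {Pi q Pj : List V} (L : VL E σ e X ty pre gate c i j Pi q Pj)
    {σ1 : ι → List V} {m1 : ι → ι} (G : F1 E t σ m e pre gate c i j Pi q Pj σ1 m1)
    {c' : Bool} {x : V} (hx : x ∈ X c') (hon : On σ1 x) :
    ∃ u, Rl e u ∧ Out m i j u ∧ x ∈ line σ m u := by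
  obtain ⟨u, hu⟩ := (on_iff_line (m := m1)).1 hon
  have hm1 := G.st.hm
  have k1 : x ∉ line σ1 m1 i := by
    rw [G.li]
    simp only [List.mem_append, List.mem_reverse, not_or]
    exact ⟨⟨fun h => (T.zone_avoid hs L.ri L.ti (L.pi.subset h)).2.1 c' hx,
      fun h => (L.free x h).2 c' hx⟩,
      fun h => (T.zone_avoid hs (c := !c) L.rj (by rw [Bool.not_not]; exact L.tj)
        (L.pj.subset h)).2.1 c' hx⟩
  have k2 : x ∉ line σ1 m1 (e c) := G.la ▸ T.tail_noX hs (T.rl_m L.ri) hx _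
  have k3 : x ∉ line σ1 m1 (e (!c)) := G.lb ▸ T.tail_noX hs (T.rl_m L.rj) hx _
  have hr : Rl e u := fun c'' h => by
    subst h
    by_cases hc : c'' = c
    · exact k2 (hc ▸ hu)
    · have : c'' = !c := by cases c <;> cases c'' <;> simp_all
      exact k3 (this ▸ hu)
  have ho : Out m i j u := by
    refine ⟨fun h => k1 (h ▸ hu), fun h => k2 ?_, fun h => k1 ?_, fun h => k3 ?_⟩
    · rw [← mem_line_m hm1, G.ma, ← h]; exact hu
    · rw [← mem_line_m hm1, G.mi, ← h]; exact hu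
    · rw [← mem_line_m hm1, G.mb, ← h]; exact hu
  exact ⟨u, hr, ho, (G.oth u hr ho).2 ▸ hu⟩

/-- vertices on the realized lines of the swapped system -/
theorem sw_on (T : TS E t k σ m e X F ty pre mid gate) (hs : ∀ x y, E x y → E y x)
    {c : Bool} {z : ι} (h1 : Rl e z)
    (h2 : Rl e (l z)) {σ2 : ι → List V} {m2 : ι → ι} (S : SW E t l σ m e pre gate c z σ2 m2)
    {u : ι} (hu : u ≠ z) (hu' : u ≠ l z) {v : V} (hv : v ∈ line σ2 m2 u) :
    On σ v ∧ v ∉ zone ty pre gate z ∧ v ∉ zone ty pre gate (l z) ∧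
      ((∃ c', v ∈ X c') → Rl e u ∧ Out m z (l z) u) := by
  have hm2 := S.st.hm
  have hm := T.st.hm
  have n1 : l z ≠ z := S.mz ▸ hm2.fpf z
  have n2 : z ≠ m (l z) := fun h => S.zm (hm.eq_iff.1 h.symm)
  have k2 : v ∈ line σ2 m2 (e c) → On σ v ∧ v ∉ zone ty pre gate z ∧
      v ∉ zone ty pre gate (l z) ∧ ((∃ c', v ∈ X c') → Rl e u ∧ Out m z (l z) u) := fun h => by
    rw [S.la] at h
    obtain ⟨a1, a2, a3⟩ := T.tail_on h1 h2 n1 S.zm h
    exact ⟨a1, a2, a3, fun ⟨c', hx⟩ => absurd h (T.tail_noX hs (T.rl_m h1) hx _)⟩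
  have k3 : v ∈ line σ2 m2 (e (!c)) → On σ v ∧ v ∉ zone ty pre gate z ∧
      v ∉ zone ty pre gate (l z) ∧ ((∃ c', v ∈ X c') → Rl e u ∧ Out m z (l z) u) := fun h => by
    rw [S.lb] at h
    obtain ⟨a1, a2, a3⟩ := T.tail_on h2 h1 n1.symm n2 h
    exact ⟨a1, a3, a2, fun ⟨c', hx⟩ => absurd h (T.tail_noX hs (T.rl_m h2) hx _)⟩
  by_cases a1 : u = e c
  · exact k2 (a1 ▸ hv)
  by_cases a2 : u = e (!c)
  · exact k3 (a2 ▸ hv)
  by_cases a3 : u = m z
  · exact k2 (by rw [← mem_line_m hm2, S.ma, ← a3]; exact hv)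
  by_cases a4 : u = m (l z)
  · exact k3 (by rw [← mem_line_m hm2, S.mb, ← a4]; exact hv)
  have hr : Rl e u := T.rl_of a1 a2
  have ho : Out m z (l z) u := ⟨hu, a3, hu', a4⟩
  rw [(S.oth u hr ho).2] at hv
  refine ⟨On.of_line hv, fun h => ?_, fun h => ?_, fun _ => ⟨hr, ho⟩⟩
  · rcases T.st.line_disj (T.zone_sub h1 h) hv with h | h
    · exact hu h
    · exact a3 h
  · rcases T.st.line_disj (T.zone_sub h2 h) hv with h | h
    · exact hu' h
    · exact a4 h

end TS

theorem F1.tri {c : Bool} {i j : ι} {Pi q Pj : List V} {σ1 : ι → List V} {m1 : ι → ι}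
    (T : TS E t k σ m e X F ty pre mid gate) (L : VL E σ e X ty pre gate c i j Pi q Pj)
    (G : F1 E t σ m e pre gate c i j Pi q Pj σ1 m1) : Tri m m1 (e c) i j := by
  refine ⟨G.st.hm, L.ri c, T.me c ▸ L.ri _, L.rj c, T.me c ▸ L.rj _, L.ne, G.jm, G.mi, G.ma,
    T.me c ▸ G.mb, fun u a b d => (G.oth u (T.rl_of a (T.me c ▸ b)) d).1⟩

theorem VL.symm (hs : ∀ x y, E x y → E y x) {c : Bool} {i j : ι} {Pi q Pj : List V}
    (L : VL E σ e X ty pre gate c i j Pi q Pj) :
    VL E σ e X ty pre gate (!c) j i Pj q.reverse Pi := by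
  refine ⟨L.rj, L.ri, L.ne.symm, by rw [Bool.not_not]; exact L.tj, L.ti, L.nj, L.ni, L.pj, L.pi,
    List.nodup_reverse.2 L.nd, fun o ho => L.free o (List.mem_reverse.1 ho), ?_⟩
  simpa using chain_rev hs L.ch

theorem F1.symm {c : Bool} {i j : ι} {Pi q Pj : List V} {σ1 : ι → List V} {m1 : ι → ι}
    (hm : Pr m) (G : F1 E t σ m e pre gate c i j Pi q Pj σ1 m1) :
    F1 E t σ m e pre gate (!c) j i Pj q.reverse Pi σ1 m1 := by
  refine ⟨G.st, fun h => G.jm (by rw [h, hm.inv]), by rw [← G.mi, G.st.hm.inv], G.mb,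
    by rw [Bool.not_not]; exact G.ma, fun u a b => G.oth u a b.symm, ?_, G.lb,
    by rw [Bool.not_not]; exact G.la⟩
  conv_lhs => rw [← G.mi, line_rev G.st.hm, G.li]
  simp

theorem SW.symm {c : Bool} {z : ι} {σ2 : ι → List V} {m2 : ι → ι} (hl : Pr l) (hm : Pr m)
    (S : SW E t l σ m e pre gate c z σ2 m2) : SW E t l σ m e pre gate (!c) (l z) σ2 m2 := by
  refine ⟨?_, ?_, ?_, S.mb, ?_, ?_, S.slz, ?_, S.lb, ?_⟩ <;> simp only [hl.inv, Bool.not_not]
  · rw [Finset.pair_comm]; exact S.st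
  · exact fun h => S.zm (hm.eq_iff.1 h.symm)
  · rw [← S.mz, S.st.hm.inv]
  · exact S.ma
  · exact fun u a b => S.oth u a b.symm
  · exact S.sz
  · exact S.la

end

section

variable {V ι : Type} [Fintype ι] {E : V → V → Prop} {t : ι → V} {l : ι → ι} {k : ℕ}
  {σ : ι → List V} {m : ι → ι} {e : Bool → ι} {X : Bool → Set V} {F : Bool → Finset V} {ty : ι → Option Bool}
  {pre mid : ι → List V} {gate : ι → V}

namespace VLx

/-- vertices off the system and outside the gadgets -/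
def Fr (σ : ι → List V) (X : Bool → Set V) : Set V := {o | ¬ On σ o ∧ ∀ c, o ∉ X c}

/-- the zone of `u` with everything reachable from it through free vertices -/
def Rg (E : V → V → Prop) (σ : ι → List V) (X : Bool → Set V) (ty : ι → Option Bool)
    (pre : ι → List V) (gate : ι → V) (u : ι) : Set V :=
  {x | x ∈ zone ty pre gate u ∨ ∃ w ∈ zone ty pre gate u, RO E (Fr σ X) w x}

/-- the world of side `c` -/
def Wd (E : V → V → Prop) (t : ι → V) (σ : ι → List V) (e : Bool → ι) (X : Bool → Set V)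
    (ty : ι → Option Bool) (pre : ι → List V) (gate : ι → V) (c : Bool) : Set V :=
  {x | x = t (e c) ∨ x ∈ X c ∨ ∃ j, Rl e j ∧ ty j = some c ∧ x ∈ Rg E σ X ty pre gate j}

theorem ty_cases (o : Option Bool) (c : Bool) (h : o ≠ some (!c)) : o = none ∨ o = some c := by
  rcases o with _ | b
  · exact Or.inl rfl
  · cases b <;> cases c <;> simp at h ⊢

theorem side_exists (a b : Option Bool) :
    (∃ c, a ≠ some (!c) ∧ b ≠ some c) ∨ ∃ c, a = some c ∧ b = some c := by
  rcases a with _ | a <;> rcases b with _ | b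
  · exact Or.inl ⟨true, by simp⟩
  · exact Or.inl ⟨!b, by simp⟩
  · exact Or.inl ⟨a, by simp⟩
  · cases a <;> cases b <;> simp

theorem zone_chain (T : TS E t k σ m e X F ty pre mid gate) {u : ι} (hr : Rl e u) {A B : List V}
    {w : V} (h : zone ty pre gate u = A ++ w :: B) : (A ++ [w]).IsChain E := by
  obtain ⟨M, hM, -⟩ := T.zone_line hr
  have hc := T.chain hr
  rw [hM, h] at hc
  have : A ++ w :: B ++ M ++ gate (m u) :: (pre (m u)).reverse =
      (A ++ [w]) ++ (B ++ M ++ gate (m u) :: (pre (m u)).reverse) := by simp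
  rw [this] at hc
  exact chain_left hc

/-- without a valid link only zones of the same world are linked -/
theorem nolink (hs : ∀ x y, E x y → E y x) (T : TS E t k σ m e X F ty pre mid gate)
    (hno : ¬ ∃ c i j Pi q Pj, VL E σ e X ty pre gate c i j Pi q Pj) {i j : ι} (hi : Rl e i)
    (hj : Rl e j) {w v : V} (hw : w ∈ zone ty pre gate i) (hv : v ∈ zone ty pre gate j)
    (hh : Hit E (Fr σ X) w v) : i = j ∨ ∃ c, ty i = some c ∧ ty j = some c := by
  by_cases hij : i = j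
  · exact Or.inl hij
  rcases side_exists (ty i) (ty j) with ⟨c, c1, c2⟩ | h
  swap
  · exact Or.inr h
  exfalso
  obtain ⟨q, q1, q2, q3⟩ := hh.path hs
  obtain ⟨A, B, hA⟩ := List.append_of_mem hw
  obtain ⟨A', B', hA'⟩ := List.append_of_mem hv
  refine hno ⟨c, i, j, A ++ [w], q, A' ++ [v], hi, hj, hij, c1, c2, by simp, by simp,
    ⟨B, by simp [hA]⟩, ⟨B', by simp [hA']⟩, q1, fun o ho => (q2 o ho).1.mem, ?_⟩
  have a1 := zone_chain T hi hA
  have a2 := chain_rev hs (zone_chain T hj hA')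
  have a3 : ((w :: q) ++ v :: A'.reverse).IsChain E :=
    chain_glue (by simpa using q3) (by simpa using a2)
  have a4 := chain_glue a1 (B := q ++ v :: A'.reverse) (by simpa using a3)
  simpa using a4

theorem gate_zone {u : ι} {c : Bool} (h : ty u = some c) : gate u ∈ zone ty pre gate u := by
  simp [zone, h]

theorem pre_zone {u : ι} {v : V} (h : v ∈ pre u) : v ∈ zone ty pre gate u := by
  unfold zone
  split_ifs <;> simp [h]

/-- every vertex is free, in a gadget, a loose terminal, in a zone, or a common gate -/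
theorem classify (T : TS E t k σ m e X F ty pre mid gate) (v : V) :
    v ∈ Fr σ X ∨ (∃ c, v ∈ X c) ∨ (∃ c, v = t (e c)) ∨
      (∃ j, Rl e j ∧ v ∈ zone ty pre gate j) ∨ v ∈ F false ∩ F true := by
  by_cases hX : ∃ c, v ∈ X c
  · exact Or.inr (Or.inl hX)
  by_cases hon : On σ v
  swap
  · exact Or.inl ⟨hon, fun c h => hX ⟨c, h⟩⟩
  right; right
  obtain ⟨u, hu⟩ := hon
  by_cases hr : Rl e u
  swap
  · left
    unfold Rl at hr
    push Not at hr
    obtain ⟨c, rfl⟩ := hr
    rw [T.triv] at hu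
    exact ⟨c, List.mem_singleton.1 hu⟩
  right
  have hl : v ∈ line σ m u := mem_line.2 (Or.inl hu)
  obtain ⟨M, hM, hM'⟩ := T.zone_line hr
  rw [hM] at hl
  simp only [List.mem_append, List.mem_cons, List.mem_reverse] at hl
  rcases hl with (hl | hl) | hl | hl
  · exact Or.inl ⟨u, hr, hl⟩
  · obtain ⟨c, -, h, -⟩ := hM' v hl
    exact absurd ⟨c, h⟩ hX
  · rcases hty : ty (m u) with _ | c
    · right
      have := (T.sgl (m u) (T.rl_m hr) hty).2.2
      rw [hl, Finset.mem_inter]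
      exact ⟨this _, this _⟩
    · exact Or.inl ⟨m u, T.rl_m hr, hl ▸ gate_zone hty⟩
  · exact Or.inl ⟨m u, T.rl_m hr, pre_zone hl⟩

theorem rg_nt (hs : ∀ x y, E x y → E y x) (T : TS E t k σ m e X F ty pre mid gate) {u : ι}
    (hr : Rl e u) {x : V} (hx : x ∈ Rg E σ X ty pre gate u) :
    (∀ c, x ∉ X c) ∧ (∀ c, x ≠ t (e c)) ∧ (∀ c, x ∈ F c → ty u = some c) := by
  rcases hx with hx | ⟨w, -, hx⟩
  · have key : ∀ c, x ∈ F c → ty u = some c := by
      intro c hc
      by_contra hne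
      exact (T.zone_avoid hs (c := !c) hr (by simpa using hne) hx).1 (by simpa using hc)
    rcases side_exists (ty u) none with ⟨c, c1, -⟩ | ⟨c, -, c2⟩
    · have := T.zone_avoid hs hr c1 hx
      exact ⟨this.2.1, this.2.2.1, key⟩
    · simp at c2
  · have ho := hx.mem
    refine ⟨ho.2, fun c => T.st.nt_of_not_on ho.1 _, fun c hc => ?_⟩
    obtain ⟨j, -, hj⟩ := T.Fon c x hc
    exact absurd (On.of_line hj) ho.1

/-- neighbours of a region -/
theorem rg_step (hs : ∀ x y, E x y → E y x) (T : TS E t k σ m e X F ty pre mid gate)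
    (hno : ¬ ∃ c i j Pi q Pj, VL E σ e X ty pre gate c i j Pi q Pj) {u : ι} (hr : Rl e u)
    {x v : V} (hx : x ∈ Rg E σ X ty pre gate u) (hv : E x v) :
    v ∈ F false ∩ F true ∨ v ∈ Rg E σ X ty pre gate u ∨
      ∃ c, ty u = some c ∧ v ∈ Wd E t σ e X ty pre gate c := by
  obtain ⟨n1, n2, n3⟩ := rg_nt hs T hr hx
  obtain ⟨w, hw, hh⟩ : ∃ w ∈ zone ty pre gate u, Hit E (Fr σ X) w v := by
    rcases hx with hx | ⟨w, hw, hx⟩
    · exact ⟨x, hx, Or.inl hv⟩
    · exact ⟨w, hw, Or.inr ⟨x, hx, hv⟩⟩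
  rcases classify T v with h | ⟨c, h⟩ | ⟨c, h⟩ | ⟨j, hj, h⟩ | h
  · exact Or.inr (Or.inl (Or.inr ⟨w, hw, hh.ro h⟩))
  · rcases (((T.gad c).adjX v h x).1 (hs _ _ hv)).2 with a | a | a
    · exact absurd a (n1 c)
    · exact Or.inr (Or.inr ⟨c, n3 c a, Or.inr (Or.inl h)⟩)
    · exact absurd a (n2 c)
  · rcases ((T.gad c).adja x).1 (h ▸ hs _ _ hv) with a | a
    · exact absurd a (n1 c)
    · exact Or.inr (Or.inr ⟨c, n3 c a, Or.inl h⟩)
  · rcases nolink hs T hno hr hj hw h hh with rfl | ⟨c, c1, c2⟩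
    · exact Or.inr (Or.inl (Or.inl h))
    · exact Or.inr (Or.inr ⟨c, c1, Or.inr (Or.inr ⟨j, hj, c2, Or.inl h⟩)⟩)
  · exact Or.inl h

theorem F_wd (hs : ∀ x y, E x y → E y x) (T : TS E t k σ m e X F ty pre mid gate) {c : Bool}
    {v : V} (hv : v ∈ F c) : v ∈ Wd E t σ e X ty pre gate c ∨ v ∈ F false ∩ F true := by
  obtain ⟨u, hr, h1, rfl⟩ := T.F_on hs hv
  rcases ty_cases _ _ h1 with h | h
  · right
    have := (T.sgl u hr h).2.2
    exact Finset.mem_inter.2 ⟨this _, this _⟩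
  · exact Or.inl (Or.inr (Or.inr ⟨u, hr, h, Or.inl (gate_zone h)⟩))

theorem wd_step (hs : ∀ x y, E x y → E y x) (T : TS E t k σ m e X F ty pre mid gate)
    (hno : ¬ ∃ c i j Pi q Pj, VL E σ e X ty pre gate c i j Pi q Pj) {c : Bool} {x v : V}
    (hx : x ∈ Wd E t σ e X ty pre gate c) (hv : E x v) :
    v ∈ Wd E t σ e X ty pre gate c ∨ v ∈ F false ∩ F true := by
  rcases hx with rfl | hx | ⟨j, hj, h1, hx⟩
  · rcases ((T.gad c).adja v).1 hv with a | a
    · exact Or.inl (Or.inr (Or.inl a))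
    · exact F_wd hs T a
  · rcases (((T.gad c).adjX x hx v).1 hv).2 with a | a | a
    · exact Or.inl (Or.inr (Or.inl a))
    · exact F_wd hs T a
    · exact Or.inl (Or.inl a)
  · rcases rg_step hs T hno hj hx hv with a | a | ⟨c', c1, a⟩
    · exact Or.inr a
    · exact Or.inl (Or.inr (Or.inr ⟨j, hj, h1, a⟩))
    · rw [h1] at c1
      cases c1
      exact Or.inl a

theorem rg_step' (hs : ∀ x y, E x y → E y x) (T : TS E t k σ m e X F ty pre mid gate)
    (hno : ¬ ∃ c i j Pi q Pj, VL E σ e X ty pre gate c i j Pi q Pj) {u : ι} (hr : Rl e u)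
    (hty : ty u = none) {x v : V} (hx : x ∈ Rg E σ X ty pre gate u) (hv : E x v) :
    v ∈ Rg E σ X ty pre gate u ∨ v ∈ F false ∩ F true := by
  rcases rg_step hs T hno hr hx hv with a | a | ⟨c, c1, -⟩
  · exact Or.inr a
  · exact Or.inl a
  · rw [hty] at c1; cases c1

theorem e_ne (T : TS E t k σ m e X F ty pre mid gate) (c : Bool) : e (!c) ≠ e c := by
  rw [← T.me]; exact T.st.hm.fpf _

theorem t_zone (T : TS E t k σ m e X F ty pre mid gate) {u : ι} (hr : Rl e u)
    (h : zone ty pre gate u ≠ []) : t u ∈ zone ty pre gate u := by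
  obtain ⟨M, hM, -⟩ := T.zone_line hr
  obtain ⟨r, hr⟩ := T.st.head_of_line (by rw [hM, List.append_assoc]) h
  rw [hr]; simp

theorem rg_term (T : TS E t k σ m e X F ty pre mid gate) {u i : ι} (hr : Rl e u)
    (h : t i ∈ Rg E σ X ty pre gate u) : i = u := by
  rcases h with h | ⟨w, -, h⟩
  · obtain ⟨M, hM, -⟩ := T.zone_line hr
    have hn := T.st.line_nodup u
    rcases T.st.t_mem_line.1 (show t i ∈ line σ m u by rw [hM]; simp [h]) with a | a
    · exact a
    · obtain ⟨r, hr⟩ := T.st.last_of_line hM (by simp)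
      have h2 : t (m u) ∈ gate (m u) :: (pre (m u)).reverse := by
        rw [← List.mem_reverse, hr]; simp
      rw [hM, List.nodup_append] at hn
      exact absurd rfl (hn.2.2 (t (m u)) (by rw [← a]; simp [h]) _ h2)
  · exact absurd (T.st.t_on i) h.mem.1

end VLx

end

end Pool.Agent.P.MP_4197d5_co.Inf
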